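import Pool.Agent.H940.Z.Rec

set_option autoImplicit false
set_option linter.unusedSectionVars false
set_option linter.unusedVariables false

/-! # Series of volumes with conditions on the angular component -/

namespace Pool.Agent.H940.Q

open MvPolynomial Pool.Agent.W428.MOT Pool.Agent.TH192.MT Pool.Agent.TH192.DT Pool.Agent.Q49.CO
open Pool.Agent.Q57.QM Pool.Agent.H940.Z

variable {K : Type} [Field K] {σ σ' : Type}

/-- a relation between arcs and numbers -/
abbrev RelA (K : Type) [Field K] (σ : Type) : Type := Arc K σ → AlgebraicClosure K → Prop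

/-- `Q` is a constructible condition on the coefficients of order at most `q` and a number -/
structure CQ (Q : RelA K σ) (q : ℕ) : Prop where
  det : ∀ (γ δ : Arc K σ) (a : AlgebraicClosure K), (∀ i, Cg q (γ i) (δ i)) → (Q γ a ↔ Q δ a)
  con : Constr {z : Pt K ((σ × Fin (q + 1)) ⊕ Unit) |
    Q (ar fun x => z (Sum.inl x)) (z (Sum.inr ()))}

namespace CQ

variable {Q Q' : RelA K σ} {q q' : ℕ}

theorem mono (h : CQ Q q) (hq : q ≤ q') : CQ Q q' where
  det := fun γ δ a hγ => h.det γ δ a fun i => cg_mono hq (hγ i)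
  con := by
    have h1 := h.con.preimage (fun (z : Pt K ((σ × Fin (q' + 1)) ⊕ Unit))
      (x : (σ × Fin (q + 1)) ⊕ Unit) => Sum.elim (fun y : σ × Fin (q + 1) =>
        z (Sum.inl (y.1, ⟨y.2, by omega⟩))) (fun _ => z (Sum.inr ())) x) fun i => by
          rcases i with i | i
          · exact IsPF.coord _
          · exact IsPF.coord _
    refine (congrArg Constr (Set.ext fun z => ?_)).mp h1
    refine h.det _ _ _ fun i k hk => ?_
    rw [coeff_ar, coeff_ar, dif_pos (by omega), dif_pos (by omega)]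
    rfl

theorem congr (h : CQ Q q) (hQ : ∀ γ a, Q γ a ↔ Q' γ a) : CQ Q' q := by
  have h1 : Q = Q' := funext fun γ => funext fun a => propext (hQ γ a)
  rwa [← h1]

theorem and (h : CQ Q q) (h' : CQ Q' q) : CQ (fun γ a => Q γ a ∧ Q' γ a) q where
  det := fun γ δ a hγ => and_congr (h.det γ δ a hγ) (h'.det γ δ a hγ)
  con := Constr.and h.con h'.con

theorem or (h : CQ Q q) (h' : CQ Q' q) : CQ (fun γ a => Q γ a ∨ Q' γ a) q where
  det := fun γ δ a hγ => or_congr (h.det γ δ a hγ) (h'.det γ δ a hγ)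
  con := Constr.or h.con h'.con

theorem not (h : CQ Q q) : CQ (fun γ a => ¬ Q γ a) q where
  det := fun γ δ a hγ => not_congr (h.det γ δ a hγ)
  con := Constr.not h.con

/-- conditions on the arc -/
theorem of_cyl {P : Arc K σ → Prop} (h : Cyl P q) : CQ (fun γ _ => P γ) q where
  det := fun γ δ a hγ => h.det γ δ hγ
  con := h.con.preimage (fun (z : Pt K ((σ × Fin (q + 1)) ⊕ Unit)) (x : σ × Fin (q + 1)) =>
    z (Sum.inl x)) fun i => IsPF.coord _

/-- conditions on the number -/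
theorem of_val {E : Set (AlgebraicClosure K)}
    (hE : Constr {z : Pt K Unit | z () ∈ E}) : CQ (fun (_ : Arc K σ) a => a ∈ E) q where
  det := fun _ _ _ _ => Iff.rfl
  con := hE.preimage (fun (z : Pt K ((σ × Fin (q + 1)) ⊕ Unit)) (_ : Unit) =>
    z (Sum.inr ())) fun i => IsPF.coord _

theorem ex {α : Type} [Finite α] {Q : α → RelA K σ} (h : ∀ x, CQ (Q x) q) :
    CQ (fun γ a => ∃ x, Q x γ a) q where
  det := fun γ δ a hγ => exists_congr fun x => (h x).det γ δ a hγ
  con := Constr.ex fun x => (h x).con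

end CQ

/-- the maps of arcs which are given by polynomials on the jets of order `m` -/
structure PMap (Φ : Arc K σ → Arc K σ') (m : ℕ) : Prop where
  cg : ∀ γ δ : Arc K σ, (∀ i, Cg m (γ i) (δ i)) → ∀ i, Cg m (Φ γ i) (Φ δ i)
  pf : ∀ i, ∀ j ≤ m, IsPF fun z : Pt K (σ × Fin (m + 1)) => PowerSeries.coeff j (Φ (ar z) i)

theorem CQ.pull {Q : RelA K σ'} {q : ℕ} (hQ : CQ Q q) {Φ : Arc K σ → Arc K σ'} (hΦ : PMap Φ q)
    (V : Arc K σ → AlgebraicClosure K → AlgebraicClosure K)
    (hV : ∀ (γ δ : Arc K σ) a, (∀ i, Cg q (γ i) (δ i)) → V γ a = V δ a)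
    (pV : IsPF fun z : Pt K ((σ × Fin (q + 1)) ⊕ Unit) => V (ar fun x => z (Sum.inl x))
      (z (Sum.inr ()))) : CQ (fun γ a => Q (Φ γ) (V γ a)) q where
  det := fun γ δ a h => by
    rw [hV γ δ a h]
    exact hQ.det _ _ _ (hΦ.cg γ δ h)
  con := by
    have h1 := hQ.con.preimage (fun (z : Pt K ((σ × Fin (q + 1)) ⊕ Unit))
      (x : (σ' × Fin (q + 1)) ⊕ Unit) => Sum.elim (fun y : σ' × Fin (q + 1) =>
        PowerSeries.coeff (y.2 : ℕ) (Φ (ar fun x => z (Sum.inl x)) y.1))
        (fun _ => V (ar fun x => z (Sum.inl x)) (z (Sum.inr ()))) x) fun i => by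
          rcases i with i | i
          · exact (hΦ.pf i.1 i.2 (by omega)).comp
              (fun (z : Pt K ((σ × Fin (q + 1)) ⊕ Unit)) (x : σ × Fin (q + 1)) => z (Sum.inl x))
              fun i => IsPF.coord _
          · exact pV
    refine (congrArg Constr (Set.ext fun z => ?_)).mp h1
    refine hQ.det _ _ _ fun i k hk => ?_
    rw [coeff_ar, dif_pos (by omega)]
    rfl

theorem CQ.pull' {Q : RelA K σ'} {q : ℕ} (hQ : CQ Q q) {Φ : Arc K σ → Arc K σ'} (hΦ : PMap Φ q) :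
    CQ (fun γ a => Q (Φ γ) a) q :=
  hQ.pull hΦ (fun _ a => a) (fun _ _ _ _ => rfl) (IsPF.coord _)

theorem Cyl.pull {P : Arc K σ' → Prop} {q : ℕ} (hP : Cyl P q) {Φ : Arc K σ → Arc K σ'}
    (hΦ : PMap Φ q) : Cyl (fun γ => P (Φ γ)) q where
  det := fun γ δ h => hP.det _ _ (hΦ.cg γ δ h)
  con := by
    have h1 := hP.con.preimage (fun (z : Pt K (σ × Fin (q + 1))) (y : σ' × Fin (q + 1)) =>
        PowerSeries.coeff (y.2 : ℕ) (Φ (ar z) y.1)) fun i => hΦ.pf i.1 i.2 (by omega)
    refine (congrArg Constr (Set.ext fun z => ?_)).mp h1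
    refine hP.det _ _ fun i k hk => ?_
    rw [coeff_ar, dif_pos (by omega)]

/-- the relation at a fixed number -/
theorem CQ.at {Q : RelA K σ} {q : ℕ} (hQ : CQ Q q) (a : K) :
    Cyl (fun γ => Q γ (algebraMap K (AlgebraicClosure K) a)) q where
  det := fun γ δ h => hQ.det _ _ _ h
  con := by
    have h1 := hQ.con.preimage (fun (z : Pt K (σ × Fin (q + 1))) (x : (σ × Fin (q + 1)) ⊕ Unit) =>
      Sum.elim (fun y : σ × Fin (q + 1) => z y)
        (fun _ => algebraMap K (AlgebraicClosure K) a) x) fun i => by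
          rcases i with i | i
          · exact IsPF.coord _
          · exact IsPF.const a
    exact h1

theorem CQ.at0 {Q : RelA K σ} {q : ℕ} (hQ : CQ Q q) : Cyl (fun γ => Q γ 0) q := by
  have h1 := hQ.at 0
  rwa [map_zero] at h1

/-- the condition for the coefficient of the series -/
def Cd (Q : RelA K σ) (f : MvPolynomial σ K) (N : ℕ) (γ : Arc K σ) : Prop :=
  Vn N (aeval γ f) ∧ Q γ (PowerSeries.coeff N (aeval γ f))

theorem cyl_Cd {Q : RelA K σ} {q : ℕ} (hQ : CQ Q q) (f : MvPolynomial σ K) {N m : ℕ} (hN : N ≤ m)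
    (hq : q ≤ m) : Cyl (Cd Q f N) m := by
  refine (Cyl.vn f (by omega)).and ?_
  have hQm := hQ.mono hq
  refine ⟨fun γ δ h => ?_, ?_⟩
  · rw [cg_aevalK f m γ δ h N hN]
    exact hQm.det _ _ _ h
  · have h1 := hQm.con.preimage (fun (z : Pt K (σ × Fin (m + 1)))
      (x : (σ × Fin (m + 1)) ⊕ Unit) => Sum.elim (fun y : σ × Fin (m + 1) => z y)
        (fun _ => PowerSeries.coeff N (aeval (ar z) f)) x) fun i => by
          rcases i with i | i
          · exact IsPF.coord _
          · exact pf_coeffK (fun z => z) (fun i => IsPF.coord _) _ _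
    exact h1

variable [Fintype σ] [Fintype σ'] {R : Type} [CommRing R] (M : Meas K R)

/-- the series of the volumes -/
noncomputable def SQ (v : R) (Q : RelA K σ) (f : MvPolynomial σ K) : PowerSeries R :=
  PowerSeries.mk fun N => vo M v (Cd Q f N)

theorem coeff_SQ (v : R) (Q : RelA K σ) (f : MvPolynomial σ K) (N : ℕ) :
    PowerSeries.coeff N (SQ M v Q f) = vo M v (Cd Q f N) := PowerSeries.coeff_mk _ _

theorem SQ_congr (v : R) {Q Q' : RelA K σ} (f : MvPolynomial σ K) (h : ∀ γ a, Q γ a ↔ Q' γ a) :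
    SQ M v Q f = SQ M v Q' f := by
  have h1 : Q = Q' := funext fun γ => funext fun a => propext (h γ a)
  rw [h1]

section

variable {v : R} (hv : M.L * v = 1)
include hv

theorem SQ_split {Q Q' : RelA K σ} {q q' : ℕ} (hQ : CQ Q q) (hQ' : CQ Q' q')
    (f : MvPolynomial σ K) :
    SQ M v Q f = SQ M v (fun γ a => Q γ a ∧ Q' γ a) f + SQ M v (fun γ a => Q γ a ∧ ¬ Q' γ a) f := by
  ext N
  rw [map_add, coeff_SQ, coeff_SQ, coeff_SQ]
  have h1 : Cyl (Cd Q f N) (max (max q q') N) := cyl_Cd hQ f (by omega) (by omega)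
  have h2 : Cyl (Cd Q' f N) (max (max q q') N) := cyl_Cd hQ' f (by omega) (by omega)
  rw [vo_split M hv h1 h2]
  congr 1
  · refine vo_congr M fun γ => ?_
    unfold Cd
    tauto
  · refine vo_congr M fun γ => ?_
    unfold Cd
    tauto

theorem SQ_splitC {Q : RelA K σ} {P : Arc K σ → Prop} {q q' : ℕ} (hQ : CQ Q q) (hP : Cyl P q')
    (f : MvPolynomial σ K) :
    SQ M v Q f = SQ M v (fun γ a => Q γ a ∧ P γ) f + SQ M v (fun γ a => Q γ a ∧ ¬ P γ) f :=
  SQ_split M hv hQ (CQ.of_cyl hP) f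

theorem SQ_false {Q : RelA K σ} (h : ∀ γ a, ¬ Q γ a) (f : MvPolynomial σ K) : SQ M v Q f = 0 := by
  ext N
  rw [coeff_SQ, map_zero]
  exact vo_false M hv fun γ hγ => h γ _ hγ.2

/-- finite disjoint unions -/
theorem SQ_sum {α : Type} (s : Finset α) {Q : α → RelA K σ} {q : ℕ}
    (hQ : ∀ x ∈ s, CQ (Q x) q)
    (hd : ∀ x ∈ s, ∀ y ∈ s, x ≠ y → ∀ γ a, Q x γ a → Q y γ a → False)
    (f : MvPolynomial σ K) :
    SQ M v (fun γ a => ∃ x ∈ s, Q x γ a) f = ∑ x ∈ s, SQ M v (Q x) f := by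
  ext N
  rw [map_sum, coeff_SQ]
  simp only [coeff_SQ]
  rw [← vo_sum M hv s (q := max q N) (fun x hx => cyl_Cd (hQ x hx) f (by omega) (by omega))
    (fun x hx y hy hxy γ h h' => hd x hx y hy hxy γ _ h.2 h'.2)]
  refine vo_congr M fun γ => ?_
  constructor
  · rintro ⟨h2, x, hx, h1⟩
    exact ⟨x, hx, h2, h1⟩
  · rintro ⟨x, hx, h2, h1⟩
    exact ⟨h2, x, hx, h1⟩

end

end Pool.Agent.H940.Q
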