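import Pool.Agent.H940.Q.Cv

set_option autoImplicit false
set_option linter.unusedSectionVars false
set_option linter.unusedVariables false

/-! # Conditions under which the order of the gradient is bounded -/

namespace Pool.Agent.H940.Q

open MvPolynomial Pool.Agent.W428.MOT Pool.Agent.TH192.MT Pool.Agent.TH192.DT Pool.Agent.Q49.CO
open Pool.Agent.Q57.QM Pool.Agent.H940.Z

variable {K : Type} [Field K] {σ : Type} [Fintype σ]

/-- jets which differ in the coefficients of order `k` -/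
theorem ar_diff {N : ℕ} (k' : Fin (N + 1)) (z w : Pt K (σ × Fin (N + 1)))
    (hzw : ∀ q : σ × Fin (N + 1), q.2 ≠ k' → w q = z q) :
    ar w = fun i => ar z i + PowerSeries.X ^ (k' : ℕ) * PowerSeries.C (w (i, k') - z (i, k')) := by
  funext i
  ext j
  rw [map_add, coeff_ar, coeff_ar, mul_comm, PowerSeries.coeff_C_mul, PowerSeries.coeff_X_pow]
  by_cases hj : j < N + 1
  · rw [dif_pos hj, dif_pos hj]
    by_cases hjk : j = k'
    · have h1 : (⟨j, hj⟩ : Fin (N + 1)) = k' := Fin.ext hjk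
      rw [if_pos hjk, mul_one, h1]
      ring
    · rw [if_neg hjk, mul_zero, add_zero]
      refine hzw _ fun hc => ?_
      exact hjk (congrArg Fin.val hc)
  · rw [dif_neg hj, dif_neg hj, if_neg (by omega), mul_zero, add_zero]

theorem cg_diff {N : ℕ} (k' : Fin (N + 1)) (z w : Pt K (σ × Fin (N + 1)))
    (hzw : ∀ q : σ × Fin (N + 1), q.2 ≠ k' → w q = z q) {c : ℕ} (hc : c < k') (i : σ) :
    Cg c (ar w i) (ar z i) := by
  intro j hj
  rw [ar_diff k' z w hzw, map_add, mul_comm, PowerSeries.coeff_C_mul, PowerSeries.coeff_X_pow,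
    if_neg (by omega), mul_zero, add_zero]

theorem tay_diff (f : MvPolynomial σ K) {e N : ℕ} (h1 : 2 * e < N) (k' : Fin (N + 1))
    (hk : (k' : ℕ) = N - e) (z w : Pt K (σ × Fin (N + 1)))
    (hzw : ∀ q : σ × Fin (N + 1), q.2 ≠ k' → w q = z q)
    (hz : ∀ s, Vn e (aeval (ar z) (pderiv s f))) :
    (Vn N (aeval (ar z) f) → Vn N (aeval (ar w) f)) ∧
    PowerSeries.coeff N (aeval (ar w) f) = PowerSeries.coeff N (aeval (ar z) f) +
      ∑ s, PowerSeries.coeff e (aeval (ar z) (pderiv s f)) * (w (s, k') - z (s, k')) := by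
  set k := (k' : ℕ) with hk'
  have h3 := taylor2 (F := AlgebraicClosure K) f k (ar z)
    (fun i => PowerSeries.C (w (i, k') - z (i, k')))
  rw [← ar_diff k' z w hzw] at h3
  have h4 : ∀ s, ∃ b, aeval (ar z) (pderiv s f) = PowerSeries.X ^ e * b := fun s =>
    vn_iff.1 (hz s)
  choose b hb using h4
  have hcb : ∀ s, PowerSeries.coeff e (aeval (ar z) (pderiv s f)) = PowerSeries.coeff 0 (b s) := by
    intro s
    rw [hb s]
    have := PowerSeries.coeff_X_pow_mul (b s) e 0
    rwa [Nat.zero_add] at this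
  have h5 : PowerSeries.X ^ k * ∑ s, aeval (ar z) (pderiv s f) *
      PowerSeries.C (w (s, k') - z (s, k')) = PowerSeries.X ^ N * ∑ s, b s *
      PowerSeries.C (w (s, k') - z (s, k')) := by
    rw [Finset.mul_sum, Finset.mul_sum]
    refine Finset.sum_congr rfl fun s _ => ?_
    rw [hb s]
    have : (PowerSeries.X : PowerSeries (AlgebraicClosure K)) ^ N =
        PowerSeries.X ^ k * PowerSeries.X ^ e := by
      rw [← pow_add]
      congr 1
      omega
    rw [this]
    ring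
  rw [h5] at h3
  obtain ⟨A, hA⟩ := h3
  have h6 : aeval (ar w) f = aeval (ar z) f + PowerSeries.X ^ N * ((∑ s, b s *
      PowerSeries.C (w (s, k') - z (s, k'))) + PowerSeries.X ^ (2 * k - N) * A) := by
    have h7 : (PowerSeries.X : PowerSeries (AlgebraicClosure K)) ^ (2 * k) =
        PowerSeries.X ^ N * PowerSeries.X ^ (2 * k - N) := by
      rw [← pow_add]
      congr 1
      omega
    rw [h7] at hA
    linear_combination hA
  constructor
  · intro h8
    rw [vn_iff] at h8 ⊢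
    rw [h6]
    exact dvd_add h8 (Dvd.intro _ rfl)
  · rw [h6, map_add]
    congr 1
    have h9 := PowerSeries.coeff_X_pow_mul ((∑ s, b s *
      PowerSeries.C (w (s, k') - z (s, k'))) + PowerSeries.X ^ (2 * k - N) * A) N 0
    rw [Nat.zero_add] at h9
    rw [h9, map_add]
    have h10 : PowerSeries.coeff 0 (PowerSeries.X ^ (2 * k - N) * A) = 0 := by
      rw [PowerSeries.coeff_X_pow_mul', if_neg (by omega)]
    rw [h10, add_zero, map_sum]
    refine Finset.sum_congr rfl fun s _ => ?_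
    rw [hcb, mul_comm (b s), PowerSeries.coeff_C_mul, mul_comm]

variable {R : Type} [CommRing R] (M : Meas K R)

/-- the graph of a function -/
theorem chi_graph {ι : Type} [Fintype ι] {T : Set (Pt K (ι ⊕ Unit))} {S : Set (Pt K ι)}
    (F : Pt K ι → AlgebraicClosure K) (hF : IsPF F) (hS : Constr S) (hT : Constr T)
    (h : ∀ z : Pt K (ι ⊕ Unit), z ∈ T ↔
      (fun i => z (Sum.inl i)) ∈ S ∧ z (Sum.inr ()) = F fun i => z (Sum.inl i)) :
    M.χ _ S = M.χ _ T := by
  refine M.iso S T hS hT (fun z x => Sum.elim z (fun _ => F z) x) (fun z i => z (Sum.inl i))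
    (regularOn_poly (fun i => ?_) _) (regularOn_poly (fun i => IsPF.coord _) _) ?_ ?_ ?_ ?_
  · rcases i with i | i
    · exact IsPF.coord _
    · exact hF
  · intro z hz
    exact (h _).2 ⟨hz, rfl⟩
  · intro z hz
    exact ((h _).1 hz).1
  · intro z _
    rfl
  · intro z hz
    funext i
    rcases i with i | i
    · rfl
    · exact ((h _).1 hz).2.symm

/-- the set of the jets with an angular component -/
def SU (Q : RelA K σ) (f : MvPolynomial σ K) (e N : ℕ) : Set (Pt K ((σ × Fin (N + 1)) ⊕ Unit)) :=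
  {z | (GO f e (ar fun x => z (Sum.inl x)) ∧ Vn N (aeval (ar fun x => z (Sum.inl x)) f)) ∧
    Q (ar fun x => z (Sum.inl x)) (z (Sum.inr ()))}

theorem mem_SU (Q : RelA K σ) (f : MvPolynomial σ K) (e N : ℕ)
    (z : Pt K ((σ × Fin (N + 1)) ⊕ Unit)) : z ∈ SU Q f e N ↔
      (GO f e (ar fun x => z (Sum.inl x)) ∧ Vn N (aeval (ar fun x => z (Sum.inl x)) f)) ∧
        Q (ar fun x => z (Sum.inl x)) (z (Sum.inr ())) := Iff.rfl

theorem constr_SU {Q : RelA K σ} {q e N : ℕ} (hQ : CQ Q q) (f : MvPolynomial σ K) (he : e ≤ N)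
    (hq : q ≤ N) : Constr (SU Q f e N) :=
  ((CQ.of_cyl (((cyl_GO f he).and (Cyl.vn f (by omega))))).and (hQ.mono hq)).con

theorem chi_SU {Q : RelA K σ} {q e N : ℕ} (hQ : CQ Q q) (f : MvPolynomial σ K) (h1 : 2 * e < N)
    (h2 : q + e < N) : M.χ _ {z : Pt K (σ × Fin (N + 1)) | GO f e (ar z) ∧ Cd Q f N (ar z)} * M.L =
      M.χ _ (SU Q f e N) := by
  classical
  set k := N - e with hk
  set k' : Fin (N + 1) := ⟨k, by omega⟩ with hk'
  set C : Finset ((σ × Fin (N + 1)) ⊕ Unit) :=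
    Finset.univ.image (fun s => Sum.inl (s, k')) with hC
  have hmC : ∀ p, p ∈ C ↔ ∃ s, p = Sum.inl (s, k') := by
    intro p
    rw [hC, Finset.mem_image]
    constructor
    · rintro ⟨v, _, rfl⟩
      exact ⟨v, rfl⟩
    · rintro ⟨v, rfl⟩
      exact ⟨v, Finset.mem_univ _, rfl⟩
  set pj : Pt K ((σ × Fin (N + 1)) ⊕ Unit) → Pt K (σ × Fin (N + 1)) := fun z x => z (Sum.inl x)
    with hpj
  set zr : Pt K ((σ × Fin (N + 1)) ⊕ Unit) → Pt K (σ × Fin (N + 1)) := fun z q =>
    if q.2 = k' then 0 else z (Sum.inl q) with hzr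
  set D : Fin 1 → ((σ × Fin (N + 1)) ⊕ Unit) → Pt K ((σ × Fin (N + 1)) ⊕ Unit) →
      AlgebraicClosure K :=
    fun _ q z => Sum.elim (fun q => PowerSeries.coeff e (aeval (ar (pj z)) (pderiv q.1 f)))
      (fun _ => 0) q with hD
  set H : Fin 1 → Pt K ((σ × Fin (N + 1)) ⊕ Unit) → AlgebraicClosure K :=
    fun _ z => PowerSeries.coeff N (aeval (ar (zr z)) f) - z (Sum.inr ()) with hH
  have hzw' : ∀ z w : Pt K ((σ × Fin (N + 1)) ⊕ Unit), (∀ q, q ∉ C → w q = z q) →
      ∀ q : σ × Fin (N + 1), q.2 ≠ k' → pj w q = pj z q := by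
    intro z w h q hq
    refine h _ fun hc => ?_
    obtain ⟨s, hs⟩ := (hmC _).1 hc
    exact hq (congrArg Prod.snd (Sum.inl_injective hs))
  have hgr : ∀ z w : Pt K (σ × Fin (N + 1)), (∀ q : σ × Fin (N + 1), q.2 ≠ k' → w q = z q) →
      ∀ s, ∀ j ≤ e, PowerSeries.coeff j (aeval (ar w) (pderiv s f)) =
        PowerSeries.coeff j (aeval (ar z) (pderiv s f)) := by
    intro z w hzw s j hj
    exact cg_aevalK (pderiv s f) (k - 1) _ _
      (fun i => cg_diff k' z w hzw (c := k - 1) (by simp only [hk']; omega) i) j (by omega)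
  have hzr' : ∀ z : Pt K ((σ × Fin (N + 1)) ⊕ Unit), ∀ q : σ × Fin (N + 1), q.2 ≠ k' →
      pj z q = zr z q := by
    intro z q hq
    simp only [hzr, if_neg hq]
    rfl
  have hsum : ∀ z : Pt K ((σ × Fin (N + 1)) ⊕ Unit), GO f e (ar (pj z)) →
      (PowerSeries.coeff N (aeval (ar (pj z)) f) - z (Sum.inr ()) =
        ∑ q ∈ C, D 0 q z * z q + H 0 z) := by
    intro z hz
    have h3 := (tay_diff f h1 k' rfl (zr z) (pj z) (hzr' z) (fun s j hj => by
      have h4 := hgr (zr z) (pj z) (hzr' z) s j (by omega)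
      rw [← h4]
      exact hz.1 s j hj)).2
    have h4 : ∀ s, PowerSeries.coeff e (aeval (ar (zr z)) (pderiv s f)) * (pj z (s, k') -
        zr z (s, k')) = D 0 (Sum.inl (s, k')) z * z (Sum.inl (s, k')) := by
      intro s
      simp only [hD, Sum.elim_inl]
      rw [← hgr (zr z) (pj z) (hzr' z) s e le_rfl]
      simp only [hzr, if_true, sub_zero]
      rfl
    rw [h3, Finset.sum_congr rfl fun s _ => h4 s, hC,
      Finset.sum_image (fun a _ b _ h => (Prod.mk.inj (Sum.inl_injective h)).1)]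
    simp only [hH]
    ring
  have hcS := constr_SU hQ f (e := e) (N := N) (by omega) (by omega)
  have hcL : Constr {z : Pt K ((σ × Fin (N + 1)) ⊕ Unit) |
      ∀ p, ∑ q ∈ C, D p q z * z q + H p z = 0} := by
    refine Constr.all fun p => Constr.eqz ?_
    refine IsPF.add (IsPF.sum _ _ fun q _ => IsPF.mul ?_ (IsPF.coord _)) ?_
    · rcases q with q | q
      · exact pf_coeffK pj (fun i => IsPF.coord _) _ _
      · exact IsPF.zero
    · refine IsPF.sub (pf_coeffK zr (fun q => ?_) _ _) (IsPF.coord _)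
      simp only [hzr]
      by_cases h : q.2 = k'
      · simp only [if_pos h]
        exact IsPF.zero
      · simp only [if_neg h]
        exact IsPF.coord _
  have key := sLin' M C 1 (SU Q f e N) D H hcS ?_ ?_ ?_ ?_
  · rw [pow_one] at key
    rw [← key]
    congr 1
    have hc1 : Cyl (fun γ : Arc K σ => GO f e γ ∧ Cd Q f N γ) N :=
      (cyl_GO f (by omega)).and (cyl_Cd hQ f le_rfl (by omega))
    refine chi_graph M (fun z => PowerSeries.coeff N (aeval (ar z) f))
      (pf_coeffK (fun z => z) (fun i => IsPF.coord _) _ _) hc1.con (hcS.inter hcL) fun z => ?_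
    rw [Set.mem_inter_iff, mem_SU]
    constructor
    · rintro ⟨⟨⟨hz1, hz2⟩, hz3⟩, hz4⟩
      have h3 := hz4 0
      rw [← hsum _ hz1, sub_eq_zero] at h3
      refine ⟨⟨hz1, hz2, ?_⟩, h3.symm⟩
      rw [← h3] at hz3
      exact hz3
    · rintro ⟨⟨hz1, hz2, hz3⟩, hz4⟩
      refine ⟨⟨⟨hz1, hz2⟩, ?_⟩, fun p => ?_⟩
      · rw [hz4]
        exact hz3
      · rw [Subsingleton.elim p 0, ← hsum _ hz1, hz4]
        exact sub_self _
  · rintro p (q | q)
    · exact pf_coeffK pj (fun i => IsPF.coord _) _ _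
    · exact IsPF.zero
  · intro p
    refine IsPF.sub (pf_coeffK zr (fun q => ?_) _ _) (IsPF.coord _)
    simp only [hzr]
    by_cases h : q.2 = k'
    · simp only [if_pos h]
      exact IsPF.zero
    · simp only [if_neg h]
      exact IsPF.coord _
  · intro z w hzw
    have h3 := hzw' z w hzw
    have hu : w (Sum.inr ()) = z (Sum.inr ()) := hzw _ fun hc => by
      obtain ⟨s, hs⟩ := (hmC _).1 hc
      exact absurd hs (by simp)
    refine ⟨?_, ?_, ?_⟩
    · rintro ⟨⟨⟨h4, s, h5⟩, h6⟩, h7⟩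
      refine ⟨⟨⟨fun s j hj => ?_, s, ?_⟩, ?_⟩, ?_⟩
      · change PowerSeries.coeff j (aeval (ar (pj w)) (pderiv s f)) = 0
        rw [hgr (pj z) (pj w) h3 s j (by omega)]
        exact h4 s j hj
      · change PowerSeries.coeff e (aeval (ar (pj w)) (pderiv s f)) ≠ 0
        rw [hgr (pj z) (pj w) h3 s e le_rfl]
        exact h5
      · exact (tay_diff f h1 k' rfl (pj z) (pj w) h3 h4).1 h6
      · rw [hu]
        exact (hQ.det _ _ _ fun i => cg_diff k' (pj z) (pj w) h3 (c := q)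
          (by simp only [hk']; omega) i).2 h7
    · rintro p (q | q)
      · exact hgr (pj z) (pj w) h3 q.1 e le_rfl
      · rfl
    · intro p
      simp only [hH]
      have : zr w = zr z := by
        funext q
        simp only [hzr]
        by_cases h : q.2 = k'
        · rw [if_pos h, if_pos h]
        · rw [if_neg h, if_neg h]
          exact h3 q h
      rw [this, hu]
  · rintro z ⟨⟨⟨_, s, hs⟩, _⟩, _⟩ l hl p
    have h3 := hl (Sum.inl (s, k')) ((hmC _).2 ⟨s, rfl⟩)
    rw [Fin.sum_univ_one] at h3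
    rw [Subsingleton.elim p 0]
    exact (mul_eq_zero.1 h3).resolve_right hs

variable {v : R} (hv : M.L * v = 1)
include hv

/-- **The angular component is free.** -/
theorem fib {Q : RelA K σ} {q e N : ℕ} (hQ : CQ Q q) (f : MvPolynomial σ K) (h1 : 2 * e < N)
    (h2 : q + e < N) : vo M v (fun γ => GO f e γ ∧ Cd Q f N γ) =
      vo M v (LU fun γ a => (GO f e γ ∧ Vn N (aeval γ f)) ∧ Q γ a) := by
  have hc1 : Cyl (fun γ : Arc K σ => GO f e γ ∧ Cd Q f N γ) N :=
    (cyl_GO f (by omega)).and (cyl_Cd hQ f le_rfl (by omega))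
  have hc2 : CQ (fun γ a => (GO f e γ ∧ Vn N (aeval γ f)) ∧ Q γ a) N :=
    (CQ.of_cyl (((cyl_GO f (by omega)).and (Cyl.vn f (by omega))))).and (hQ.mono (by omega))
  rw [vo_eq M hv hc1, vo_LU M hv hc2]
  unfold vq
  have h3 := chi_SU M hQ f h1 h2
  have h4 : {z : Pt K ((σ × Fin (N + 1)) ⊕ Unit) |
      (GO f e (ar fun x => z (Sum.inl x)) ∧ Vn N (aeval (ar fun x => z (Sum.inl x)) f)) ∧
        Q (ar fun x => z (Sum.inl x)) (z (Sum.inr ()))} = SU Q f e N := rfl
  rw [h4, ← h3]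
  linear_combination -(M.χ _ {z : Pt K (σ × Fin (N + 1)) | GO f e (ar z) ∧ Cd Q f N (ar z)} *
    v ^ (Fintype.card σ * (N + 1))) * hv

/-- the gradient of a polynomial in more variables -/
theorem go_rename {σ' : Type} [Fintype σ'] (f : MvPolynomial σ K) (e : ℕ) (δ : Arc K (σ ⊕ σ')) :
    GO (rename Sum.inl f) e δ ↔ GO f e fun i => δ (Sum.inl i) := by
  have h1 : ∀ s, aeval δ (pderiv (Sum.inl s) (rename Sum.inl f : MvPolynomial (σ ⊕ σ') K)) =
      aeval (fun i => δ (Sum.inl i)) (pderiv s f) := by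
    intro s
    rw [pderiv_rename Sum.inl_injective, aeval_rename]
    rfl
  have h2 : ∀ s, pderiv (Sum.inr s) (rename Sum.inl f : MvPolynomial (σ ⊕ σ') K) = 0 := by
    intro s
    classical
    refine pderiv_eq_zero_of_notMem_vars fun h => ?_
    obtain ⟨i, _, hi⟩ := Finset.mem_image.1 (vars_rename Sum.inl f h)
    exact absurd hi (by simp)
  unfold GO
  constructor
  · rintro ⟨h3, s | s, h4⟩
    · refine ⟨fun s => ?_, s, ?_⟩
      · rw [← h1]
        exact h3 _
      · rw [← h1]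
        exact h4
    · rw [h2, map_zero, map_zero] at h4
      exact absurd rfl h4
  · rintro ⟨h3, s, h4⟩
    refine ⟨?_, Sum.inl s, ?_⟩
    · rintro (s | s)
      · rw [h1]
        exact h3 s
      · rw [h2, map_zero]
        intro j _
        rw [map_zero]
    · rw [h1]
      exact h4

/-- **Stability.** -/
theorem stableQ (f : MvPolynomial σ K) : ∀ (e : ℕ) {Q : RelA K σ} {q : ℕ}, CQ Q q →
    (∀ γ a, Q γ a → ∃ s, ¬ Vn e (aeval γ (pderiv s f))) → ∃ N₀, ∀ N, N₀ ≤ N →
      vo M v (Cd Q f (N + 1)) = v * vo M v (Cd Q f N) := by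
  intro e
  induction e with
  | zero =>
    intro Q q hQ h
    refine ⟨0, fun N _ => ?_⟩
    have h1 : ∀ γ a, ¬ Q γ a := by
      intro γ a hγ
      obtain ⟨s, hs⟩ := h γ a hγ
      exact hs fun j hj => absurd hj (Nat.not_lt_zero j)
    rw [vo_false M hv fun γ hγ => h1 γ _ hγ.2, vo_false M hv fun γ hγ => h1 γ _ hγ.2, mul_zero]
  | succ e ih =>
    intro Q q hQ h
    set G : Arc K σ → Prop := fun γ => ∀ s, Vn e (aeval γ (pderiv s f)) with hG
    have hGc : Cyl G e := Cyl.all fun s => Cyl.vn (pderiv s f) (by omega)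
    have hQG : CQ (fun γ a => Q γ a ∧ ¬ G γ) (max q e) :=
      (hQ.mono (le_max_left _ _)).and (CQ.of_cyl (hGc.mono (le_max_right _ _))).not
    obtain ⟨N₀, hN₀⟩ := ih hQG (by
      rintro γ a ⟨_, h2⟩
      by_contra hc
      push Not at hc
      exact h2 hc)
    refine ⟨N₀ + (2 * e + q + 1), fun N hN => ?_⟩
    have h3 : ∀ N', vo M v (Cd Q f N') =
        vo M v (fun γ => GO f e γ ∧ Cd Q f N' γ) +
        vo M v (Cd (fun γ a => Q γ a ∧ ¬ G γ) f N') := by
      intro N'
      have hPN : Cyl (Cd Q f N') (max q N') := cyl_Cd hQ f (by omega) (by omega)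
      rw [vo_split M hv hPN hGc]
      congr 1
      · refine vo_congr M fun γ => ?_
        constructor
        · rintro ⟨⟨h4, h5⟩, h6⟩
          refine ⟨⟨h6, ?_⟩, h4, h5⟩
          obtain ⟨s, hs⟩ := h γ _ h5
          refine ⟨s, fun h7 => hs fun j hj => ?_⟩
          rcases Nat.lt_succ_iff_lt_or_eq.1 hj with h8 | rfl
          · exact h6 s j h8
          · exact h7
        · rintro ⟨⟨h6, _⟩, h5⟩
          exact ⟨h5, h6⟩
      · refine vo_congr M fun γ => ?_
        unfold Cd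
        tauto
    have h4 : ∀ N', 2 * e < N' → q + e < N' → vo M v (fun γ => GO f e γ ∧ Cd Q f N' γ) =
        vo M v fun δ => (LU Q δ ∧ GO (rename Sum.inl f) e δ) ∧ Vn N' (aeval δ (rename Sum.inl f)) := by
      intro N' h5 h6
      rw [fib M hv hQ f h5 h6]
      refine vo_congr M fun δ => ?_
      rw [go_rename M hv, aeval_rename]
      unfold LU
      constructor
      · rintro ⟨⟨h7, h8⟩, h9⟩
        exact ⟨⟨h9, h7⟩, h8⟩
      · rintro ⟨⟨h9, h7⟩, h8⟩
        exact ⟨⟨h7, h8⟩, h9⟩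
    rw [h3, h3, h4 _ (by omega) (by omega), h4 _ (by omega) (by omega), hN₀ N (by omega),
      step_vo M hv (rename Sum.inl f) (cyl_LU hQ) (by omega) (by omega), mul_add]

section rat

variable (u : Rˣ) (hL : M.L = (u : R))
omit hv
include hL

/-- **The series on a set on which the order of the gradient is bounded.** -/
theorem SQ_bdd {D : Set (ℤ × ℤ)} (hD : (-1, 1) ∈ D) (f : MvPolynomial σ K) (e : ℕ)
    {Q : RelA K σ} {q : ℕ} (hQ : CQ Q q)
    (h : ∀ γ a, Q γ a → ∃ s, ¬ Vn e (aeval γ (pderiv s f))) :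
    SQ M ((u⁻¹ : Rˣ) : R) Q f ∈ ratU u D := by
  have hv : M.L * ((u⁻¹ : Rˣ) : R) = 1 := by rw [hL, Units.mul_inv]
  obtain ⟨N₀, hN₀⟩ := stableQ M hv f e hQ h
  refine rat_of_stable u hD _ N₀ fun N hN => ?_
  rw [coeff_SQ, coeff_SQ]
  exact hN₀ N hN

end rat

end Pool.Agent.H940.Q
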