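import Pool.Agent.H940.Q.Whi

set_option autoImplicit false
set_option linter.unusedSectionVars false
set_option linter.unusedVariables false

/-! # Cones: the recursions -/

namespace Pool.Agent.H940.Q

open MvPolynomial Pool.Agent.W428.MOT Pool.Agent.TH192.MT Pool.Agent.TH192.DT Pool.Agent.Q49.CO
open Pool.Agent.Q57.QM Pool.Agent.H940.Z

variable {K : Type} [Field K] {σ τ : Type} [Fintype σ] [DecidableEq σ] [Fintype τ]

/-- multiplication of the left part by `t` -/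
noncomputable def tx (γ : Arc K (σ ⊕ τ)) : Arc K (σ ⊕ τ) := tl 1 1 (fun _ => 1) γ

theorem lp_tx (γ : Arc K (σ ⊕ τ)) : lp (tx γ) = fun i => PowerSeries.X * lp γ i := by
  unfold tx
  rw [lp_tl, tt_one]

theorem tx_inl (γ : Arc K (σ ⊕ τ)) (i : σ) :
    tx γ (Sum.inl i) = PowerSeries.X * γ (Sum.inl i) := congrFun (lp_tx γ) i

theorem tx_inr (γ : Arc K (σ ⊕ τ)) (j : τ) : tx γ (Sum.inr j) = γ (Sum.inr j) := rfl

theorem pmap_tx (m : ℕ) : PMap (tx : Arc K (σ ⊕ τ) → _) m := pmap_tl 1 1 _ m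

theorem cyl_orl (q : ℕ) : Cyl (fun γ : Arc K (σ ⊕ τ) => Or (lp γ)) q :=
  Cyl.pull (cyl_Or q) (pmap_inl q)

/-- `Q` depends only on the coefficients of the left part of order less than `k` -/
def DL (Q : RelA K (σ ⊕ τ)) (k : ℕ) : Prop := ∀ (γ δ : Arc K (σ ⊕ τ)) b,
  (∀ i, ∀ j < k, PowerSeries.coeff j (γ (Sum.inl i)) = PowerSeries.coeff j (δ (Sum.inl i))) →
  (∀ j, γ (Sum.inr j) = δ (Sum.inr j)) → (Q γ b ↔ Q δ b)

theorem dl_of_cq {Q : RelA K (σ ⊕ τ)} {q : ℕ} (hQ : CQ Q q) : DL Q (q + 1) := by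
  intro γ δ b h h'
  refine hQ.det _ _ _ fun i => ?_
  rcases i with i | j
  · exact fun k hk => h i k (by omega)
  · intro k _
    rw [h' j]

theorem DL.free {Q : RelA K (σ ⊕ τ)} (h : DL Q 0) : Free Q := fun γ δ b h' =>
  h γ δ b (fun i j hj => absurd hj (Nat.not_lt_zero j)) h'

theorem DL.tx {Q : RelA K (σ ⊕ τ)} {k : ℕ} (h : DL Q (k + 1)) :
    DL (fun γ b => Q (tx γ) b) k := by
  intro γ δ b h1 h2
  refine h _ _ b (fun i j hj => ?_) fun j => ?_
  · rw [tx_inl, tx_inl]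
    rcases j with _ | j
    · rw [PowerSeries.coeff_zero_X_mul, PowerSeries.coeff_zero_X_mul]
    · rw [PowerSeries.coeff_succ_X_mul, PowerSeries.coeff_succ_X_mul]
      exact h1 i j (by omega)
  · rw [tx_inr, tx_inr]
    exact h2 j

theorem free_tx {Q : RelA K (σ ⊕ τ)} (h : Free Q) (γ : Arc K (σ ⊕ τ)) (b) : Q (tx γ) b ↔ Q γ b :=
  h _ _ b fun j => tx_inr γ j

variable {R : Type} [CommRing R] (M : Meas K R)

section

variable {v : R} (hv : M.L * v = 1) (f : MvPolynomial σ K) (d : ℕ)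
  (hf : ∀ γ : Arc K σ, aeval (fun i => PowerSeries.X * γ i) f = PowerSeries.X ^ d * aeval γ f)
include hv hf

/-- **One step.** -/
theorem stepQ {Q : RelA K (σ ⊕ τ)} {q : ℕ} (hQ : CQ Q q) : ∃ c : R,
    SQ M v Q (rename Sum.inl f) =
      SQ M v (fun γ b => Q γ b ∧ ¬ Or (lp γ)) (rename Sum.inl f) +
      PowerSeries.C (v ^ Fintype.card σ) * (PowerSeries.C c *
        ∑ j ∈ Finset.range d, PowerSeries.X ^ j +
        PowerSeries.X ^ d * SQ M v (fun γ b => Q (tx γ) b) (rename Sum.inl f)) := by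
  have h1 := SQ_splitC M hv hQ (cyl_orl (K := K) (σ := σ) (τ := τ) q) (rename Sum.inl f)
  have h2 := SQ_tl M hv (A := (1 : Matrix σ σ K)) (B := 1) (mul_one _) (mul_one _) (fun _ => 1) f d
    (fun γ => by rw [tt_one, hf]) (hQ.and (CQ.of_cyl (cyl_orl (K := K) (σ := σ) (τ := τ) q)))
    (fun γ b hγ i => by
      rw [la_one]
      intro j hj
      have : j = 0 := by omega
      rw [this]
      exact hγ.2 i)
  refine ⟨vo M v fun γ : Arc K (σ ⊕ τ) =>
    (fun γ b => Q γ b ∧ Or (lp γ)) (tl 1 1 (fun _ => 1) γ) 0, ?_⟩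
  rw [h1, h2, add_comm]
  congr 1
  have h3 := SQ_congr M v (Q := fun γ b => (fun γ b => Q γ b ∧ Or (lp γ)) (tl 1 1 (fun _ => 1) γ) b)
    (Q' := fun γ b => Q (tx γ) b) (rename Sum.inl f) fun γ b => by
      constructor
      · exact fun h => h.1
      · intro h
        refine ⟨h, ?_⟩
        change Or (lp (tx γ))
        rw [lp_tx]
        intro i
        rw [PowerSeries.coeff_zero_X_mul]
  rw [h3]
  simp only [Finset.sum_const, Finset.card_univ, smul_eq_mul, mul_one]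

end

variable (u : Rˣ) (hL : M.L = (u : R)) (D : Set (ℤ × ℤ)) (f : MvPolynomial σ K) (d : ℕ)
  (hf : ∀ γ : Arc K σ, aeval (fun i => PowerSeries.X * γ i) f = PowerSeries.X ^ d * aeval γ f)
  (hout : ∀ (Q : RelA K (σ ⊕ τ)) (q : ℕ), CQ Q q →
    SQ M ((u⁻¹ : Rˣ) : R) (fun γ b => Q γ b ∧ ¬ Or (lp γ)) (rename Sum.inl f) ∈ ratU u D)
include hL hf hout

/-- from the free relations to all relations -/
theorem all_of_free (h : ∀ (Q : RelA K (σ ⊕ τ)) (q : ℕ), CQ Q q → Free Q →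
      SQ M ((u⁻¹ : Rˣ) : R) Q (rename Sum.inl f) ∈ ratU u D) {Q : RelA K (σ ⊕ τ)} {q : ℕ}
    (hQ : CQ Q q) : SQ M ((u⁻¹ : Rˣ) : R) Q (rename Sum.inl f) ∈ ratU u D := by
  have hv : M.L * ((u⁻¹ : Rˣ) : R) = 1 := by rw [hL, Units.mul_inv]
  have key : ∀ (k : ℕ) (Q : RelA K (σ ⊕ τ)) (q : ℕ), CQ Q q → DL Q k →
      SQ M ((u⁻¹ : Rˣ) : R) Q (rename Sum.inl f) ∈ ratU u D := by
    intro k
    induction k with
    | zero => exact fun Q q hQ hk => h Q q hQ hk.free
    | succ k ih =>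
      intro Q q hQ hk
      obtain ⟨c, hc⟩ := stepQ M hv f d hf hQ
      rw [hc]
      exact Subalgebra.add_mem _ (hout Q q hQ) (Subalgebra.mul_mem _ (rat_C u _)
        (Subalgebra.add_mem _ (geo_mem M u hL _ _) (Subalgebra.mul_mem _
          (Subalgebra.pow_mem _ (rat_X u) _) (ih _ q (hQ.pull' (pmap_tx q)) hk.tx))))
  exact key (q + 1) Q q hQ (dl_of_cq hQ)

/-- **The scalars.** -/
theorem free_scalar (hd : 0 < d) (hD : (-(Fintype.card σ : ℤ), (d : ℤ)) ∈ D)
    (Q : RelA K (σ ⊕ τ)) (q : ℕ) (hQ : CQ Q q) (hF : Free Q) :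
    SQ M ((u⁻¹ : Rˣ) : R) Q (rename Sum.inl f) ∈ ratU u D := by
  have hv : M.L * ((u⁻¹ : Rˣ) : R) = 1 := by rw [hL, Units.mul_inv]
  obtain ⟨c, hc⟩ := stepQ M hv f d hf hQ
  rw [SQ_congr M _ (Q := fun γ b => Q (tx γ) b) (Q' := Q) (rename Sum.inl f) (free_tx hF)] at hc
  refine geo_solve u (ν := Fintype.card σ) (N := d) hd hD _
    (SQ M ((u⁻¹ : Rˣ) : R) (fun γ b => Q γ b ∧ ¬ Or (lp γ)) (rename Sum.inl f) +
      PowerSeries.C (((u⁻¹ : Rˣ) : R) ^ Fintype.card σ) *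
      (PowerSeries.C c * ∑ j ∈ Finset.range d, PowerSeries.X ^ j)) ?_ ?_
  · exact Subalgebra.add_mem _ (hout Q q hQ)
      (Subalgebra.mul_mem _ (rat_C u _) (geo_mem M u hL _ _))
  · linear_combination hc

/-- **A second one-parameter group.** -/
theorem free_second {A B : Matrix σ σ K} (hAB : A * B = 1) (hBA : B * A = 1) (a : σ → ℕ) (e : ℕ)
    (he : 0 < e) (hfe : ∀ γ : Arc K σ, aeval (tt A B a γ) f = PowerSeries.X ^ e * aeval γ f)
    (hD : (-((∑ i, a i : ℕ) : ℤ), (e : ℤ)) ∈ D)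
    (Q : RelA K (σ ⊕ τ)) (q : ℕ) (hQ : CQ Q q) (hF : Free Q) :
    SQ M ((u⁻¹ : Rˣ) : R) Q (rename Sum.inl f) ∈ ratU u D := by
  have hv : M.L * ((u⁻¹ : Rˣ) : R) = 1 := by rw [hL, Units.mul_inv]
  set w := ((u⁻¹ : Rˣ) : R) with hw
  have hcb : ∀ m : σ → ℕ, Cyl (fun γ : Arc K (σ ⊕ τ) => Box A m (lp γ)) (∑ i, m i) := fun m =>
    Cyl.pull (cyl_Box A m) (pmap_inl _)
  have hQB : ∀ m : σ → ℕ, CQ (fun γ b => Q γ b ∧ Box A m (lp γ)) (max q (∑ i, m i)) := fun m =>
    (hQ.mono (le_max_left _ _)).and (CQ.of_cyl ((hcb m).mono (le_max_right _ _)))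
  have hstep : ∀ m : σ → ℕ, ∃ c : R,
      SQ M w (fun γ b => Q γ b ∧ Box A m (lp γ)) (rename Sum.inl f) =
      SQ M w (fun γ b => (Q γ b ∧ Box A m (lp γ)) ∧ ¬ Or (lp γ)) (rename Sum.inl f) +
      PowerSeries.C (w ^ Fintype.card σ) * (PowerSeries.C c *
        ∑ j ∈ Finset.range d, PowerSeries.X ^ j +
        PowerSeries.X ^ d * SQ M w (fun γ b => Q γ b ∧ Box A (fun i => m i - 1) (lp γ))
          (rename Sum.inl f)) := by
    intro m
    obtain ⟨c, hc⟩ := stepQ M hv f d hf (hQB m)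
    refine ⟨c, ?_⟩
    rw [hc]
    have h3 := SQ_congr M w (Q := fun γ b => Q (tx γ) b ∧ Box A m (lp (tx γ)))
      (Q' := fun γ b => Q γ b ∧ Box A (fun i => m i - 1) (lp γ)) (rename Sum.inl f) fun γ b => by
        refine and_congr (free_tx hF γ b) ?_
        rw [lp_tx]
        unfold Box
        rw [la_X]
        refine forall_congr' fun i => ?_
        have h4 := vn_X_pow_iff (F := AlgebraicClosure K) (a := m i) (b := 1)
          (w := la A (lp γ) i)
        rw [pow_one] at h4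
        exact h4
    rw [h3]
  have hb0 : SQ M w (fun γ b => Q γ b ∧ Box A (fun _ => 0) (lp γ)) (rename Sum.inl f) =
      SQ M w Q (rename Sum.inl f) := SQ_congr M w _ fun γ b =>
    ⟨fun h => h.1, fun h => ⟨h, fun i j hj => absurd hj (Nat.not_lt_zero j)⟩⟩
  have key : ∀ k : ℕ, ∀ m : σ → ℕ, (∀ i, m i ≤ k) →
      SQ M w Q (rename Sum.inl f) - SQ M w (fun γ b => Q γ b ∧ Box A m (lp γ)) (rename Sum.inl f) ∈
        ratU u D := by
    intro k
    induction k with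
    | zero =>
      intro m hm
      have h0 : m = fun _ => 0 := funext fun i => Nat.le_zero.1 (hm i)
      rw [h0, hb0, sub_self]
      exact zero_mem _
    | succ k ih =>
      intro m hm
      obtain ⟨c, hc⟩ := hstep m
      obtain ⟨c', hc'⟩ := hstep fun _ => 0
      simp only [Nat.zero_sub] at hc'
      rw [hb0] at hc'
      have h3 := ih (fun i => m i - 1) (fun i => by have := hm i; omega)
      have h4 : SQ M w Q (rename Sum.inl f) -
          SQ M w (fun γ b => Q γ b ∧ Box A m (lp γ)) (rename Sum.inl f) =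
          (SQ M w (fun γ b => (Q γ b ∧ Box A (fun _ => 0) (lp γ)) ∧ ¬ Or (lp γ))
              (rename Sum.inl f) -
            SQ M w (fun γ b => (Q γ b ∧ Box A m (lp γ)) ∧ ¬ Or (lp γ)) (rename Sum.inl f)) +
          PowerSeries.C (w ^ Fintype.card σ) * (PowerSeries.C c' *
            ∑ j ∈ Finset.range d, PowerSeries.X ^ j) -
          PowerSeries.C (w ^ Fintype.card σ) * (PowerSeries.C c *
            ∑ j ∈ Finset.range d, PowerSeries.X ^ j) +
          PowerSeries.C (w ^ Fintype.card σ) * PowerSeries.X ^ d *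
            (SQ M w Q (rename Sum.inl f) -
              SQ M w (fun γ b => Q γ b ∧ Box A (fun i => m i - 1) (lp γ)) (rename Sum.inl f)) := by
        linear_combination hc' - hc
      rw [h4]
      exact Subalgebra.add_mem _ (Subalgebra.sub_mem _ (Subalgebra.add_mem _
        (Subalgebra.sub_mem _ (hout _ _ (hQB _)) (hout _ _ (hQB m)))
        (Subalgebra.mul_mem _ (rat_C u _) (geo_mem M u hL _ _)))
        (Subalgebra.mul_mem _ (rat_C u _) (geo_mem M u hL _ _)))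
        (Subalgebra.mul_mem _ (Subalgebra.mul_mem _ (rat_C u _)
          (Subalgebra.pow_mem _ (rat_X u) _)) h3)
  have h1 := key (∑ i, a i) a fun i =>
    Finset.single_le_sum (fun i _ => Nat.zero_le (a i)) (Finset.mem_univ i)
  have h2 := SQ_tl M hv hAB hBA a f e hfe (hQB a) fun γ b hγ => hγ.2
  have h3 := SQ_congr M w (Q := fun γ b => Q (tl A B a γ) b ∧ Box A a (lp (tl A B a γ)))
    (Q' := Q) (rename Sum.inl f) fun γ b => by
      constructor
      · rintro ⟨h4, _⟩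
        exact (hF _ _ b fun j => tl_inr A B a γ j).1 h4
      · intro h4
        refine ⟨(hF _ _ b fun j => tl_inr A B a γ j).2 h4, fun i => ?_⟩
        rw [lp_tl, la_tt hAB]
        unfold ts
        rw [vn_iff]
        exact Dvd.intro _ rfl
  rw [h3] at h2
  obtain ⟨c, hc⟩ : ∃ c : R, SQ M w (fun γ b => Q γ b ∧ Box A a (lp γ)) (rename Sum.inl f) =
      PowerSeries.C (w ^ (∑ i, a i)) * (PowerSeries.C c * ∑ j ∈ Finset.range e, PowerSeries.X ^ j +
        PowerSeries.X ^ e * SQ M w Q (rename Sum.inl f)) := ⟨_, h2⟩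
  refine geo_solve u (ν := ∑ i, a i) (N := e) he hD _
    ((SQ M w Q (rename Sum.inl f) -
      SQ M w (fun γ b => Q γ b ∧ Box A a (lp γ)) (rename Sum.inl f)) +
      PowerSeries.C (w ^ (∑ i, a i)) * (PowerSeries.C c *
        ∑ j ∈ Finset.range e, PowerSeries.X ^ j)) ?_ ?_
  · exact Subalgebra.add_mem _ h1 (Subalgebra.mul_mem _ (rat_C u _) (geo_mem M u hL _ _))
  · linear_combination hc

end Pool.Agent.H940.Q
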