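import Pool.Agent.H940.Q.Base

set_option autoImplicit false
set_option linter.unusedSectionVars false
set_option linter.unusedVariables false

/-! # Changes of the variables -/

namespace Pool.Agent.H940.Q

open MvPolynomial Pool.Agent.W428.MOT Pool.Agent.TH192.MT Pool.Agent.TH192.DT Pool.Agent.Q49.CO
open Pool.Agent.Q57.QM Pool.Agent.H940.Z

variable {K : Type} [Field K] {σ σ' : Type} [Fintype σ] [Fintype σ'] {R : Type} [CommRing R]
  (M : Meas K R) {v : R} (hv : M.L * v = 1)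
include hv

/-- **Change of the variables.** -/
theorem vo_cv (hc : Fintype.card σ = Fintype.card σ') {P : Arc K σ → Prop} {P' : Arc K σ' → Prop}
    {m : ℕ} (hP : Cyl P m) (hP' : Cyl P' m) (Φ : Arc K σ → Arc K σ') (Ψ : Arc K σ' → Arc K σ)
    (rΦ : RegularOn {z : Pt K (σ × Fin (m + 1)) | P (ar z)} fun z => jet m (Φ (ar z)))
    (rΨ : RegularOn {z : Pt K (σ' × Fin (m + 1)) | P' (ar z)} fun z => jet m (Ψ (ar z)))
    (cΦ : ∀ γ δ : Arc K σ, P γ → (∀ i, Cg m (γ i) (δ i)) → ∀ i, Cg m (Φ γ i) (Φ δ i))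
    (cΨ : ∀ γ δ : Arc K σ', P' γ → (∀ i, Cg m (γ i) (δ i)) → ∀ i, Cg m (Ψ γ i) (Ψ δ i))
    (h1 : ∀ γ, P γ → P' (Φ γ)) (h2 : ∀ δ, P' δ → P (Ψ δ))
    (h3 : ∀ γ, P γ → ∀ i, Cg m (Ψ (Φ γ) i) (γ i)) (h4 : ∀ δ, P' δ → ∀ i, Cg m (Φ (Ψ δ) i) (δ i)) :
    vo M v P = vo M v P' := by
  rw [vo_eq M hv hP, vo_eq M hv hP']
  unfold vq
  rw [hc]
  congr 1
  refine M.iso _ _ hP.con hP'.con (fun z => jet m (Φ (ar z))) (fun z => jet m (Ψ (ar z))) rΦ rΨ
    ?_ ?_ ?_ ?_
  · intro z hz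
    exact (hP'.det _ _ fun i => cg_jet m _ i).1 (h1 _ hz)
  · intro z hz
    exact (hP.det _ _ fun i => cg_jet m _ i).1 (h2 _ hz)
  · intro z hz
    have h5 := cΨ _ _ (h1 _ hz) (fun i => cg_jet m (Φ (ar z)) i)
    have h6 := h3 _ hz
    funext ⟨i, j⟩
    change PowerSeries.coeff (j : ℕ) (Ψ (ar (jet m (Φ (ar z)))) i) = z (i, j)
    rw [← h5 i j (by omega), h6 i j (by omega), coeff_ar, dif_pos (by omega)]
  · intro z hz
    have h5 := cΦ _ _ (h2 _ hz) (fun i => cg_jet m (Ψ (ar z)) i)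
    have h6 := h4 _ hz
    funext ⟨i, j⟩
    change PowerSeries.coeff (j : ℕ) (Φ (ar (jet m (Ψ (ar z)))) i) = z (i, j)
    rw [← h5 i j (by omega), h6 i j (by omega), coeff_ar, dif_pos (by omega)]

omit hv [Fintype σ] [Fintype σ'] in
theorem pmap_reindex (e : σ' → σ) (m : ℕ) :
    PMap (fun (γ : Arc K σ) (i : σ') => γ (e i)) m where
  cg := fun γ δ h i => h (e i)
  pf := fun i j hj => by
    have h1 : (fun z : Pt K (σ × Fin (m + 1)) => PowerSeries.coeff j (ar z (e i))) =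
        fun z => z (e i, ⟨j, by omega⟩) := by
      funext z
      rw [coeff_ar, dif_pos (by omega)]
    rw [h1]
    exact IsPF.coord _

omit hv [Fintype σ] [Fintype σ'] in
theorem pmap_regular {Φ : Arc K σ → Arc K σ'} {m : ℕ} (h : PMap Φ m)
    (S : Set (Pt K (σ × Fin (m + 1)))) : RegularOn S fun z => jet m (Φ (ar z)) :=
  regularOn_poly (f := fun z => jet m (Φ (ar z)))
    (fun i : σ' × Fin (m + 1) => h.pf i.1 i.2 (by omega)) S

/-- other names of the variables -/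
theorem vo_reindex (e : σ ≃ σ') {P : Arc K σ → Prop} {m : ℕ} (hP : Cyl P m) :
    vo M v (fun γ : Arc K σ' => P fun i => γ (e i)) = vo M v P := by
  refine vo_cv M hv (Fintype.card_congr e.symm) (Cyl.pull hP (pmap_reindex e m)) hP
    (fun γ i => γ (e i)) (fun γ i => γ (e.symm i)) (pmap_regular (pmap_reindex e m) _)
    (pmap_regular (pmap_reindex e.symm m) _) (fun γ δ _ h i => h _) (fun γ δ _ h i => h _)
    (fun γ h => h) (fun γ h => ?_) (fun γ _ i k _ => ?_) (fun γ _ i k _ => ?_)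
  · simpa using h
  · simp
  · simp

/-- the angular component as a variable -/
def LU (Q : RelA K σ) (δ : Arc K (σ ⊕ Unit)) : Prop :=
  Q (fun i => δ (Sum.inl i)) (PowerSeries.coeff 0 (δ (Sum.inr ())))

omit hv [Fintype σ] in
theorem cyl_LU {Q : RelA K σ} {q : ℕ} (hQ : CQ Q q) : Cyl (LU Q) q where
  det := fun γ δ h => by
    unfold LU
    rw [h (Sum.inr ()) 0 (Nat.zero_le _)]
    exact hQ.det _ _ _ fun i => h (Sum.inl i)
  con := by
    have h1 := hQ.con.preimage (fun (z : Pt K ((σ ⊕ Unit) × Fin (q + 1)))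
      (x : (σ × Fin (q + 1)) ⊕ Unit) => Sum.elim (fun y : σ × Fin (q + 1) => z (Sum.inl y.1, y.2))
        (fun _ => z (Sum.inr (), 0)) x) fun i => by
          rcases i with i | i
          · exact IsPF.coord _
          · exact IsPF.coord _
    refine (congrArg Constr (Set.ext fun z => ?_)).mp h1
    unfold LU
    change Q (ar fun x : σ × Fin (q + 1) => z (Sum.inl x.1, x.2)) (z (Sum.inr (), 0)) ↔
      Q (fun i => ar z (Sum.inl i)) (PowerSeries.coeff 0 (ar z (Sum.inr ())))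
    rw [coeff_ar_zero]
    rfl

/-- the coordinates of a jet with an angular component -/
def eU (σ : Type) (q : ℕ) : ((σ × Fin (q + 1)) ⊕ Unit) ⊕ Fin q ≃ (σ ⊕ Unit) × Fin (q + 1) where
  toFun := Sum.elim (Sum.elim (fun y => (Sum.inl y.1, y.2)) fun _ => (Sum.inr (), 0))
    fun k => (Sum.inr (), k.succ)
  invFun := fun x => Sum.elim (fun i => Sum.inl (Sum.inl (i, x.2)))
    (fun _ => Fin.cases (Sum.inl (Sum.inr ())) (fun k => Sum.inr k) x.2) x.1
  left_inv := by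
    rintro ((⟨i, j⟩ | i) | k)
    · rfl
    · rfl
    · rfl
  right_inv := by
    rintro ⟨i | i, j⟩
    · rfl
    · induction j using Fin.cases with
      | zero => rfl
      | succ k => rfl

theorem vo_LU {Q : RelA K σ} {q : ℕ} (hQ : CQ Q q) : vo M v (LU Q) =
    M.χ _ {z : Pt K ((σ × Fin (q + 1)) ⊕ Unit) | Q (ar fun x => z (Sum.inl x)) (z (Sum.inr ()))} *
      v ^ (Fintype.card σ * (q + 1)) * v := by
  rw [vo_eq M hv (cyl_LU hQ)]
  unfold vq
  have h1 : M.χ _ {z : Pt K ((σ ⊕ Unit) × Fin (q + 1)) | LU Q (ar z)} =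
      M.χ _ {z : Pt K ((σ × Fin (q + 1)) ⊕ Unit) |
        Q (ar fun x => z (Sum.inl x)) (z (Sum.inr ()))} * M.L ^ Fintype.card (Fin q) := by
    refine chi_split M (eU σ q) _ _ hQ.con fun z => ?_
    change Q (fun i => ar z (Sum.inl i)) (PowerSeries.coeff 0 (ar z (Sum.inr ()))) ↔
      Q (ar fun x : σ × Fin (q + 1) => z (Sum.inl x.1, x.2)) (z (Sum.inr (), 0))
    rw [coeff_ar_zero]
    rfl
  rw [h1, Fintype.card_fin, Fintype.card_sum, Fintype.card_unit]
  have h3 : M.L ^ q * v ^ q = 1 := by rw [← mul_pow, hv, one_pow]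
  have h4 : v ^ ((Fintype.card σ + 1) * (q + 1)) =
      v ^ (Fintype.card σ * (q + 1)) * v * v ^ q := by
    rw [← pow_succ, ← pow_add]
    congr 1
    ring
  rw [h4]
  linear_combination (M.χ _ {z : Pt K ((σ × Fin (q + 1)) ⊕ Unit) |
    Q (ar fun x => z (Sum.inl x)) (z (Sum.inr ()))} *
      v ^ (Fintype.card σ * (q + 1)) * v) * h3

end Pool.Agent.H940.Q
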