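import Pool.Agent.H940.Q.Newton

set_option autoImplicit false
set_option linter.unusedSectionVars false
set_option linter.unusedVariables false

/-! # Formal changes of the coordinates -/

namespace Pool.Agent.H940.Q

open MvPolynomial Pool.Agent.W428.MOT Pool.Agent.TH192.MT Pool.Agent.TH192.DT Pool.Agent.Q49.CO
open Pool.Agent.Q57.QM Pool.Agent.Q57.MD Pool.Agent.H940.Z Pool.Agent.H940.G

variable {n : ℕ}

/-- polynomial approximations of formal coordinates -/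
structure Apx (h g : MvPolynomial (Fin n) ℂ) (u0 : ℂ) (a : ℕ → Fin n → MvPolynomial (Fin n) ℂ)
    (U : ℕ → MvPolynomial (Fin n) ℂ) : Prop where
  a0 : ∀ m t, constantCoeff (a m t) = 0
  det : ∀ m, (jc (a m)).det ≠ 0
  u0 : ∀ m, constantCoeff (U m) = u0
  cong : ∀ m m', m ≤ m' → ∀ x : Arc ℂ (Fin n), Or x → ∀ t,
    (PowerSeries.X : PowerSeries (AlgebraicClosure ℂ)) ^ (m + 1) ∣ aeval x (a m t) - aeval x (a m' t)
  val : ∀ m, ∀ x : Arc ℂ (Fin n), Or x → (PowerSeries.X : PowerSeries (AlgebraicClosure ℂ)) ^ (m + 1) ∣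
    aeval x h - aeval x (U m) * aeval (fun t => aeval x (a m t)) g

theorem or_dvd {x : Arc ℂ (Fin n)} (hx : Or x) (i : Fin n) :
    (PowerSeries.X : PowerSeries (AlgebraicClosure ℂ)) ∣ x i := by
  rw [PowerSeries.X_dvd_iff, ← PowerSeries.coeff_zero_eq_constantCoeff_apply]
  exact hx i

theorem exists_apx {h g : MvPolynomial (Fin n) ℂ} {w : Fin n → ℕ} {N : ℕ}
    {η : Fin n → MvPowerSeries (Fin n) ℂ} (H : WHG h g w N η)
    (h0 : MvPolynomial.constantCoeff h = 0)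
    (h1 : ∀ i, MvPolynomial.constantCoeff (MvPolynomial.pderiv i h) = 0) :
    ∃ (u0 : ℂ) (a : ℕ → Fin n → MvPolynomial (Fin n) ℂ) (U : ℕ → MvPolynomial (Fin n) ℂ),
      u0 ≠ 0 ∧ Apx h g u0 a U := by
  classical
  obtain ⟨V, hV, hh⟩ := exists_unit H h0 h1
  choose a ha using fun (m : ℕ) (t : Fin n) => exists_trunc (η t) (m + 1)
  choose U hU using fun m : ℕ => exists_trunc V (m + 1)
  have hag : ∀ m t, η t - ((a m t : MvPolynomial (Fin n) ℂ) : MvPowerSeries (Fin n) ℂ) ∈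
      ZN ℂ (Fin n) (m + 1) := by
    intro m t d hd
    rw [map_sub, MvPolynomial.coeff_coe, ha m t d (by omega), sub_self]
  refine ⟨MvPowerSeries.constantCoeff V, a, U, hV, ⟨fun m t => ?_, fun m => ?_, fun m => ?_,
    fun m m' hm x hx t => ?_, fun m x hx => ?_⟩⟩
  · have h2 := ha m t 0 (by simp)
    rw [MvPowerSeries.coeff_zero_eq_constantCoeff_apply, H.cc] at h2
    exact h2
  · have h2 : jc (a m) = (Matrix.of fun u t => MvPowerSeries.coeff (Finsupp.single u 1) (η t)).transpose := by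
      ext1 t s
      rw [Matrix.transpose_apply, Matrix.of_apply, ← ha m t (Finsupp.single s 1) (by simp)]
      unfold jc
      rw [Matrix.of_apply, constantCoeff_eq, coeff_pderiv]
      simp
    rw [h2, Matrix.det_transpose]
    exact H.det
  · have h2 := hU m 0 (by simp)
    rw [MvPowerSeries.coeff_zero_eq_constantCoeff_apply] at h2
    exact h2
  · rw [← map_sub]
    refine dvd_of_ZN _ _ (fun d hd => ?_) _ _ (or_dvd hx)
    rw [coeff_sub, ha m t d (by omega), ha m' t d (by omega), sub_self]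
  · have h2 : ∀ d : Fin n →₀ ℕ, d.degree < m + 1 → coeff d (h - U m * aeval (a m) g) = 0 := by
      refine (mem_ZN_coe _ (m + 1)).1 ?_
      have e1 : ((h - U m * aeval (a m) g : MvPolynomial (Fin n) ℂ) : MvPowerSeries (Fin n) ℂ) =
          V * aeval η g - ((U m : MvPolynomial (Fin n) ℂ) : MvPowerSeries (Fin n) ℂ) *
            ((aeval (a m) g : MvPolynomial (Fin n) ℂ) : MvPowerSeries (Fin n) ℂ) := by
        rw [Pool.Agent.Q57.MD.coe_sub', MvPolynomial.coe_mul, ← hh]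
      rw [e1]
      refine mul_cong _ ?_ ?_
      · intro d hd
        rw [map_sub, MvPolynomial.coeff_coe, hU m d (by omega), sub_self]
      · rw [← aeval_coe]
        exact aeval_cong _ _ _ (hag m) _
    have h3 := dvd_of_ZN _ _ h2 (PowerSeries.X : PowerSeries (AlgebraicClosure ℂ)) x (or_dvd hx)
    rw [map_sub, map_mul, comp_aeval_apply] at h3
    exact h3

section

variable {τ : Type} [Fintype τ]

/-- a polynomial map on the left part of the coordinates -/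
noncomputable def pl (b : Fin n → MvPolynomial (Fin n) ℂ) (γ : Arc ℂ (Fin n ⊕ τ)) :
    Arc ℂ (Fin n ⊕ τ) :=
  fun i => Sum.elim (fun t => aeval (lp γ) (b t)) (fun j => γ (Sum.inr j)) i

theorem lp_pl (b : Fin n → MvPolynomial (Fin n) ℂ) (γ : Arc ℂ (Fin n ⊕ τ)) :
    lp (pl b γ) = fun t => aeval (lp γ) (b t) := rfl

theorem pmap_pl (b : Fin n → MvPolynomial (Fin n) ℂ) (m : ℕ) :
    PMap (pl b : Arc ℂ (Fin n ⊕ τ) → _) m :=
  ((pmap_poly b m).comp (pmap_inl m)).elim (pmap_inr m)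

theorem cyl_OrL (q : ℕ) : Cyl (fun γ : Arc ℂ (Fin n ⊕ τ) => Or (lp γ)) q := cyl_lp (cyl_Or q)

theorem aeval_inl {σ : Type} (f : MvPolynomial σ ℂ) (γ : Arc ℂ (σ ⊕ τ)) :
    aeval γ (rename Sum.inl f : MvPolynomial (σ ⊕ τ) ℂ) = aeval (lp γ) f := by
  rw [aeval_rename]
  rfl

theorem cg_of_dvd {m : ℕ} {x y : PowerSeries (AlgebraicClosure ℂ)}
    (h : (PowerSeries.X : PowerSeries (AlgebraicClosure ℂ)) ^ (m + 1) ∣ x - y) : Cg m x y := by
  intro k hk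
  have h1 := PowerSeries.X_pow_dvd_iff.1 h k (by omega)
  rw [map_sub, sub_eq_zero] at h1
  exact h1

theorem dvd_of_cg {m : ℕ} {x y : PowerSeries (AlgebraicClosure ℂ)} (h : Cg m x y) :
    (PowerSeries.X : PowerSeries (AlgebraicClosure ℂ)) ^ (m + 1) ∣ x - y := by
  rw [PowerSeries.X_pow_dvd_iff]
  intro k hk
  rw [map_sub, h k (by omega), sub_self]

/-- values which are equal up to a unit -/
theorem val_unit {N m : ℕ} (hN : N ≤ m) {x y U : PowerSeries (AlgebraicClosure ℂ)} {c : (AlgebraicClosure ℂ)}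
    (hc : PowerSeries.coeff 0 U = c) (hc0 : c ≠ 0) (h : Cg m x (U * y)) :
    (Vn N x ↔ Vn N y) ∧ (Vn N y → PowerSeries.coeff N x = c * PowerSeries.coeff N y) := by
  refine ⟨?_, fun h1 => ?_⟩
  · rw [vn_congr' h (by omega), vn_unit (by rw [hc]; exact hc0)]
  · rw [h N hN, coeff_mul_vn _ h1, hc]

theorem pl_inr (b : Fin n → MvPolynomial (Fin n) ℂ) (γ : Arc ℂ (Fin n ⊕ τ)) (j : τ) :
    pl b γ (Sum.inr j) = γ (Sum.inr j) := rfl

theorem pl_inl (b : Fin n → MvPolynomial (Fin n) ℂ) (γ : Arc ℂ (Fin n ⊕ τ)) (t : Fin n) :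
    pl b γ (Sum.inl t) = aeval (lp γ) (b t) := rfl

theorem cg_refl (m : ℕ) (x : PowerSeries (AlgebraicClosure ℂ)) : Cg m x x := fun _ _ => rfl

/-- the approximations of the inverse -/
structure Inv (h g : MvPolynomial (Fin n) ℂ) (u0 : ℂ) (a b : ℕ → Fin n → MvPolynomial (Fin n) ℂ)
    (U : ℕ → MvPolynomial (Fin n) ℂ) : Prop where
  a0 : ∀ m t, constantCoeff (a m t) = 0
  b0 : ∀ m t, constantCoeff (b m t) = 0
  uc : ∀ m (x : Arc ℂ (Fin n)), Or x → PowerSeries.coeff 0 (aeval x (U m)) = algebraMap ℂ (AlgebraicClosure ℂ) u0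
  ab : ∀ m (x : Arc ℂ (Fin n)), Or x → ∀ s, Cg m (aeval (fun t => aeval x (b m t)) (a m s)) (x s)
  ba : ∀ m (x : Arc ℂ (Fin n)), Or x → ∀ s, Cg m (aeval (fun t => aeval x (a m t)) (b m s)) (x s)
  bb : ∀ m m' (y : Arc ℂ (Fin n)), m ≤ m' → Or y → ∀ s, Cg m (aeval y (b m s)) (aeval y (b m' s))
  val : ∀ m, ∀ x : Arc ℂ (Fin n), Or x →
    Cg m (aeval x h) (aeval x (U m) * aeval (fun t => aeval x (a m t)) g)

theorem exists_inv' {h g : MvPolynomial (Fin n) ℂ} {u0 : ℂ}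
    {a : ℕ → Fin n → MvPolynomial (Fin n) ℂ} {U : ℕ → MvPolynomial (Fin n) ℂ}
    (A : Apx h g u0 a U) : ∃ b, Inv h g u0 a b U := by
  classical
  choose b hb0 hb using fun m : ℕ => exists_newton (a m) (A.a0 m) (A.det m) m
  refine ⟨b, A.a0, hb0, ?_, fun m x hx s => cg_of_dvd (hb m x hx s), ?_, ?_,
    fun m x hx => cg_of_dvd (A.val m x hx)⟩
  · intro m x hx
    have h1 := dvd_cc (U m) hx
    rw [PowerSeries.X_dvd_iff, ← PowerSeries.coeff_zero_eq_constantCoeff_apply, map_sub,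
      PowerSeries.coeff_zero_C, sub_eq_zero, A.u0] at h1
    exact h1
  · intro m x hx s
    refine cg_of_dvd (newton_inj (a m) (A.det m) (or_pm (b m) (hb0 m) (or_pm (a m) (A.a0 m) hx)) hx
      (m + 1) (fun t => ?_) s)
    exact hb m _ (or_pm (a m) (A.a0 m) hx) t
  · intro m m' y hm hy s
    have ho := or_pm (b m) (hb0 m) hy
    have ho' := or_pm (b m') (hb0 m') hy
    refine cg_of_dvd (newton_inj (a m) (A.det m) ho ho' (m + 1) (fun t => ?_) s)
    have h1 := hb m y hy t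
    have h2 := (pow_dvd_pow (PowerSeries.X : PowerSeries (AlgebraicClosure ℂ)) (by omega : m + 1 ≤ m' + 1)).trans
      (hb m' y hy t)
    have h3 := A.cong m m' hm _ ho' t
    have h4 := dvd_sub h1 (dvd_add h2 h3)
    have h5 : aeval (fun s => aeval y (b m s)) (a m t) - y t -
        (aeval (fun s => aeval y (b m' s)) (a m' t) - y t +
        (aeval (fun s => aeval y (b m' s)) (a m t) - aeval (fun s => aeval y (b m' s)) (a m' t))) =
        aeval (fun s => aeval y (b m s)) (a m t) - aeval (fun s => aeval y (b m' s)) (a m t) := by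
      ring
    rw [h5] at h4
    exact h4

section

variable {h g : MvPolynomial (Fin n) ℂ} {u0 : ℂ} {a b : ℕ → Fin n → MvPolynomial (Fin n) ℂ}
  {U : ℕ → MvPolynomial (Fin n) ℂ} (hu0 : u0 ≠ 0) (A : Inv h g u0 a b U)
  {Q : RelA ℂ (Fin n ⊕ τ)} {q : ℕ} (hQ : CQ Q q)
include hu0 A hQ

theorem cq_inv : CQ (fun (γ : Arc ℂ (Fin n ⊕ τ)) c => Q (pl (b q) γ) (algebraMap ℂ (AlgebraicClosure ℂ) u0 * c)) q :=
  hQ.pull (pmap_pl (b q) q) (fun _ c => algebraMap ℂ (AlgebraicClosure ℂ) u0 * c) (fun _ _ _ _ => rfl)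
    ((IsPF.const u0).mul (IsPF.coord _))

theorem inv_fwd {N m : ℕ} (hNm : N ≤ m) (hqm : q ≤ m) (γ : Arc ℂ (Fin n ⊕ τ))
    (hγ : Cd (fun (γ : Arc ℂ (Fin n ⊕ τ)) c => Q γ c ∧ Or (lp γ)) (rename Sum.inl h) N γ) :
    Cd (fun (γ : Arc ℂ (Fin n ⊕ τ)) c => Q (pl (b q) γ) (algebraMap ℂ (AlgebraicClosure ℂ) u0 * c) ∧ Or (lp γ))
      (rename Sum.inl g) N (pl (a m) γ) := by
  have hc0' : algebraMap ℂ (AlgebraicClosure ℂ) u0 ≠ 0 := by
    rw [Ne, map_eq_zero_iff _ (algebraMap ℂ (AlgebraicClosure ℂ)).injective]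
    exact hu0
  obtain ⟨h1, h2, h3⟩ := hγ
  rw [aeval_inl] at h1 h2
  have h4 : Or (lp (pl (a m) γ)) := or_pm (a m) (A.a0 m) h3
  obtain ⟨h5, h6⟩ := val_unit hNm (A.uc m _ h3) hc0' (A.val m _ h3)
  have h7 := h5.1 h1
  rw [h6 h7] at h2
  refine ⟨?_, ?_, h4⟩
  · rw [aeval_inl]
    exact h7
  · rw [aeval_inl]
    refine (hQ.det _ _ _ fun i => ?_).2 h2
    rcases i with i | i
    · rw [pl_inl]
      exact cg_trans (A.bb q m _ hqm h4 i) (cg_mono hqm (A.ba m _ h3 i))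
    · rw [pl_inr, pl_inr]
      exact cg_refl _ _

theorem inv_bwd {N m : ℕ} (hNm : N ≤ m) (hqm : q ≤ m) (γ : Arc ℂ (Fin n ⊕ τ))
    (hγ : Cd (fun (γ : Arc ℂ (Fin n ⊕ τ)) c => Q (pl (b q) γ) (algebraMap ℂ (AlgebraicClosure ℂ) u0 * c) ∧
      Or (lp γ)) (rename Sum.inl g) N γ) :
    Cd (fun (γ : Arc ℂ (Fin n ⊕ τ)) c => Q γ c ∧ Or (lp γ)) (rename Sum.inl h) N (pl (b m) γ) := by
  have hc0' : algebraMap ℂ (AlgebraicClosure ℂ) u0 ≠ 0 := by
    rw [Ne, map_eq_zero_iff _ (algebraMap ℂ (AlgebraicClosure ℂ)).injective]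
    exact hu0
  obtain ⟨h1, h2, h3⟩ := hγ
  rw [aeval_inl] at h1 h2
  have h4 : Or (lp (pl (b m) γ)) := or_pm (b m) (A.b0 m) h3
  have h8 : Cg m (aeval (fun t => aeval (lp (pl (b m) γ)) (a m t)) g) (aeval (lp γ) g) :=
    cg_aevalK g m _ _ fun t => A.ab m _ h3 t
  obtain ⟨h5, h6⟩ := val_unit hNm (A.uc m _ h4) hc0' (A.val m _ h4)
  have h7 := (vn_congr' h8 (by omega)).2 h1
  refine ⟨?_, ?_, h4⟩
  · rw [aeval_inl]
    exact h5.2 h7
  · rw [aeval_inl, h6 h7, h8 N hNm]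
    refine (hQ.det _ _ _ fun i => ?_).1 h2
    rcases i with i | i
    · rw [pl_inl, pl_inl]
      exact A.bb q m _ hqm h3 i
    · rw [pl_inr, pl_inr]
      exact cg_refl _ _

variable {R : Type} [CommRing R] (M : Meas ℂ R) {v : R} (hv : M.L * v = 1)
include hv

/-- **Formal changes of the coordinates.** -/
theorem sq_inv : SQ M v (fun γ c => Q γ c ∧ Or (lp γ)) (rename Sum.inl h) =
    SQ M v (fun γ c => Q (pl (b q) γ) (algebraMap ℂ (AlgebraicClosure ℂ) u0 * c) ∧ Or (lp γ))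
      (rename Sum.inl g) := by
  ext N
  rw [coeff_SQ, coeff_SQ]
  obtain ⟨m, hNm, hqm⟩ : ∃ m, N ≤ m ∧ q ≤ m := ⟨max N q, le_max_left _ _, le_max_right _ _⟩
  have hP : Cyl (Cd (fun (γ : Arc ℂ (Fin n ⊕ τ)) c => Q γ c ∧ Or (lp γ)) (rename Sum.inl h) N) m :=
    cyl_Cd (hQ.and (CQ.of_cyl (cyl_OrL q))) _ hNm hqm
  have hP' : Cyl (Cd (fun (γ : Arc ℂ (Fin n ⊕ τ)) c =>
      Q (pl (b q) γ) (algebraMap ℂ (AlgebraicClosure ℂ) u0 * c) ∧ Or (lp γ)) (rename Sum.inl g) N) m :=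
    cyl_Cd ((cq_inv hu0 A hQ).and (CQ.of_cyl (cyl_OrL q))) _ hNm hqm
  refine vo_cv M hv rfl hP hP' (pl (a m)) (pl (b m)) (pmap_regular (pmap_pl _ m) _)
    (pmap_regular (pmap_pl _ m) _) (fun γ δ _ hγ => (pmap_pl _ m).cg γ δ hγ)
    (fun γ δ _ hγ => (pmap_pl _ m).cg γ δ hγ) (inv_fwd hu0 A hQ hNm hqm)
    (inv_bwd hu0 A hQ hNm hqm) ?_ ?_
  · rintro γ ⟨_, _, h3⟩ i
    rcases i with i | i
    · rw [pl_inl]
      exact A.ba m _ h3 i
    · rw [pl_inr, pl_inr]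
      exact cg_refl _ _
  · rintro γ ⟨_, _, h3⟩ i
    rcases i with i | i
    · rw [pl_inl]
      exact A.ab m _ h3 i
    · rw [pl_inr, pl_inr]
      exact cg_refl _ _

end

/-- **Formal changes of the coordinates.** -/
theorem sq_formal {R : Type} [CommRing R] (M : Meas ℂ R) {v : R} (hv : M.L * v = 1)
    {h g : MvPolynomial (Fin n) ℂ} {u0 : ℂ}
    {a : ℕ → Fin n → MvPolynomial (Fin n) ℂ} {U : ℕ → MvPolynomial (Fin n) ℂ} (hu0 : u0 ≠ 0)
    (A : Apx h g u0 a U) {Q : RelA ℂ (Fin n ⊕ τ)} {q : ℕ} (hQ : CQ Q q) :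
    ∃ Q' : RelA ℂ (Fin n ⊕ τ), CQ Q' q ∧
      SQ M v (fun γ c => Q γ c ∧ Or (lp γ)) (rename Sum.inl h) =
        SQ M v (fun γ c => Q' γ c ∧ Or (lp γ)) (rename Sum.inl g) := by
  obtain ⟨b, hb⟩ := exists_inv' A
  exact ⟨_, cq_inv hu0 hb hQ, sq_inv hu0 hb hQ M hv⟩

end

end Pool.Agent.H940.Q
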