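import Pool.Agent.H940.Q.Formal
import Pool.Agent.H940.G.Line

set_option autoImplicit false
set_option linter.unusedSectionVars false
set_option linter.unusedVariables false

/-! # The arcs near a line of a cone -/

namespace Pool.Agent.H940.Q

open MvPolynomial Pool.Agent.W428.MOT Pool.Agent.TH192.MT Pool.Agent.TH192.DT Pool.Agent.Q49.CO
open Pool.Agent.Q57.QM Pool.Agent.Q57.MD Pool.Agent.H940.Z Pool.Agent.H940.G

variable {n : ℕ} {τ : Type} [Fintype τ]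

/-- the polynomials of the map `ch` -/
noncomputable def chp (i : Fin (n + 1)) (q : Fin n → ℂ) (τ : Type) :
    Fin (n + 1) ⊕ τ → MvPolynomial (Fin n ⊕ (Unit ⊕ τ)) ℂ := fun j =>
  Sum.elim (i.insertNth (X (Sum.inr (Sum.inl ()))) fun t =>
    X (Sum.inr (Sum.inl ())) * (X (Sum.inl t) + C (q t))) (fun j => X (Sum.inr (Sum.inr j))) j

/-- the arcs of the cone -/
noncomputable def ch (i : Fin (n + 1)) (q : Fin n → ℂ) (δ : Arc ℂ (Fin n ⊕ (Unit ⊕ τ))) :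
    Arc ℂ (Fin (n + 1) ⊕ τ) := fun j => aeval δ (chp i q τ j)

theorem pmap_ch (i : Fin (n + 1)) (q : Fin n → ℂ) (m : ℕ) :
    PMap (ch i q : Arc ℂ (Fin n ⊕ (Unit ⊕ τ)) → _) m := pmap_poly _ m

theorem ch_i (i : Fin (n + 1)) (q : Fin n → ℂ) (δ : Arc ℂ (Fin n ⊕ (Unit ⊕ τ))) :
    ch i q δ (Sum.inl i) = δ (Sum.inr (Sum.inl ())) := by
  unfold ch chp
  rw [Sum.elim_inl, Fin.insertNth_apply_same, aeval_X]

theorem ch_s (i : Fin (n + 1)) (q : Fin n → ℂ) (δ : Arc ℂ (Fin n ⊕ (Unit ⊕ τ))) (t : Fin n) :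
    ch i q δ (Sum.inl (i.succAbove t)) = δ (Sum.inr (Sum.inl ())) *
      (δ (Sum.inl t) + PowerSeries.C (algebraMap ℂ (AlgebraicClosure ℂ) (q t))) := by
  unfold ch chp
  rw [Sum.elim_inl, Fin.insertNth_apply_succAbove, map_mul, aeval_X, map_add, aeval_X, algHom_C,
    PowerSeries.algebraMap_apply]

theorem ch_r (i : Fin (n + 1)) (q : Fin n → ℂ) (δ : Arc ℂ (Fin n ⊕ (Unit ⊕ τ))) (j : τ) :
    ch i q δ (Sum.inr j) = δ (Sum.inr (Sum.inr j)) := by
  unfold ch chp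
  rw [Sum.elim_inr, aeval_X]

theorem aeval_ch (i : Fin (n + 1)) (q : Fin n → ℂ) (f : MvPolynomial (Fin (n + 1)) ℂ) (d : ℕ)
    (hf : f.IsHomogeneous d) (δ : Arc ℂ (Fin n ⊕ (Unit ⊕ τ))) :
    aeval (lp (ch i q δ)) f = δ (Sum.inr (Sum.inl ())) ^ d * aeval (lp δ) (germAt i q f) := by
  have h1 : aeval (lp δ) (germAt i q f) = aeval (i.insertNth (1 : PowerSeries (AlgebraicClosure ℂ)) fun t =>
      δ (Sum.inl t) + PowerSeries.C (algebraMap ℂ (AlgebraicClosure ℂ) (q t))) f := by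
    unfold germAt
    rw [comp_aeval_apply]
    congr 2
    funext j
    induction j using i.succAboveCases with
    | x => rw [Fin.insertNth_apply_same, Fin.insertNth_apply_same, map_one]
    | p t =>
      rw [Fin.insertNth_apply_succAbove, Fin.insertNth_apply_succAbove, map_add, aeval_X,
        algHom_C, PowerSeries.algebraMap_apply]
      rfl
  rw [h1, ← aeval_homog f d hf]
  congr 2
  funext j
  induction j using i.succAboveCases with
  | x =>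
    rw [Fin.insertNth_apply_same, mul_one]
    exact ch_i i q δ
  | p t =>
    rw [Fin.insertNth_apply_succAbove]
    exact ch_s i q δ t

/-- the inverse map -/
noncomputable def hc (i : Fin (n + 1)) (q : Fin n → ℂ) (γ : Arc ℂ (Fin (n + 1) ⊕ τ)) :
    Arc ℂ (Fin n ⊕ (Unit ⊕ τ)) := fun j =>
  Sum.elim (fun t => γ (Sum.inl (i.succAbove t)) * (γ (Sum.inl i))⁻¹ +
    PowerSeries.C (algebraMap ℂ (AlgebraicClosure ℂ) (-q t)))
    (fun k => Sum.elim (fun _ => γ (Sum.inl i)) (fun j => γ (Sum.inr j)) k) j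

theorem hc_l (i : Fin (n + 1)) (q : Fin n → ℂ) (γ : Arc ℂ (Fin (n + 1) ⊕ τ)) (t : Fin n) :
    hc i q γ (Sum.inl t) = γ (Sum.inl (i.succAbove t)) * (γ (Sum.inl i))⁻¹ +
    PowerSeries.C (algebraMap ℂ (AlgebraicClosure ℂ) (-q t)) := rfl

theorem hc_u (i : Fin (n + 1)) (q : Fin n → ℂ) (γ : Arc ℂ (Fin (n + 1) ⊕ τ)) (x : Unit) :
    hc i q γ (Sum.inr (Sum.inl x)) = γ (Sum.inl i) := rfl

theorem hc_r (i : Fin (n + 1)) (q : Fin n → ℂ) (γ : Arc ℂ (Fin (n + 1) ⊕ τ)) (j : τ) :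
    hc i q γ (Sum.inr (Sum.inr j)) = γ (Sum.inr j) := rfl

theorem hc_ch (i : Fin (n + 1)) (q : Fin n → ℂ) (δ : Arc ℂ (Fin n ⊕ (Unit ⊕ τ)))
    (h : PowerSeries.coeff 0 (δ (Sum.inr (Sum.inl ()))) ≠ 0) : hc i q (ch i q δ) = δ := by
  have h0 : PowerSeries.constantCoeff (δ (Sum.inr (Sum.inl ()))) ≠ 0 := by
    rwa [← PowerSeries.coeff_zero_eq_constantCoeff_apply]
  funext j
  rcases j with t | (x | j)
  · rw [hc_l, ch_s, ch_i, mul_comm, ← mul_assoc, PowerSeries.inv_mul_cancel _ h0, one_mul,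
      map_neg, map_neg]
    ring
  · rw [hc_u, ch_i]
  · rw [hc_r, ch_r]

theorem ch_hc (i : Fin (n + 1)) (q : Fin n → ℂ) (γ : Arc ℂ (Fin (n + 1) ⊕ τ))
    (h : PowerSeries.coeff 0 (γ (Sum.inl i)) ≠ 0) : ch i q (hc i q γ) = γ := by
  have h0 : PowerSeries.constantCoeff (γ (Sum.inl i)) ≠ 0 := by
    rwa [← PowerSeries.coeff_zero_eq_constantCoeff_apply]
  funext j
  rcases j with j | j
  · induction j using i.succAboveCases with
    | x => rw [ch_i, hc_u]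
    | p t =>
      rw [ch_s, hc_u, hc_l, map_neg, map_neg]
      have h1 := PowerSeries.mul_inv_cancel _ h0
      linear_combination γ (Sum.inl (i.succAbove t)) * h1
  · rw [ch_r, hc_r]

theorem cg_mul {m : ℕ} {x x' y y' : PowerSeries (AlgebraicClosure ℂ)} (h : Cg m x x') (h' : Cg m y y') :
    Cg m (x * y) (x' * y') := by
  refine cg_of_dvd ?_
  have h1 : x * y - x' * y' = x * (y - y') + (x - x') * y' := by ring
  rw [h1]
  exact dvd_add (Dvd.dvd.mul_left (dvd_of_cg h') _) (Dvd.dvd.mul_right (dvd_of_cg h) _)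

theorem cg_add {m : ℕ} {x x' y y' : PowerSeries (AlgebraicClosure ℂ)} (h : Cg m x x') (h' : Cg m y y') :
    Cg m (x + y) (x' + y') := by
  intro k hk
  rw [map_add, map_add, h k hk, h' k hk]

theorem cg_inv {m : ℕ} {x y : PowerSeries (AlgebraicClosure ℂ)} (h : Cg m x y)
    (h0 : PowerSeries.coeff 0 x ≠ 0) : Cg m x⁻¹ y⁻¹ := by
  have h0' : PowerSeries.coeff 0 y ≠ 0 := by rwa [← h 0 (Nat.zero_le m)]
  rw [PowerSeries.coeff_zero_eq_constantCoeff_apply] at h0 h0'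
  refine cg_of_dvd ?_
  have h1 : x⁻¹ - y⁻¹ = (x - y) * (-(x⁻¹ * y⁻¹)) := by
    have h2 := PowerSeries.mul_inv_cancel _ h0
    have h3 := PowerSeries.mul_inv_cancel _ h0'
    linear_combination y⁻¹ * h2 - x⁻¹ * h3
  rw [h1]
  exact Dvd.dvd.mul_right (dvd_of_cg h) _

theorem cg_hc (i : Fin (n + 1)) (q : Fin n → ℂ) {m : ℕ} {γ δ : Arc ℂ (Fin (n + 1) ⊕ τ)}
    (h0 : PowerSeries.coeff 0 (γ (Sum.inl i)) ≠ 0) (h : ∀ j, Cg m (γ j) (δ j)) (j) :
    Cg m (hc i q γ j) (hc i q δ j) := by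
  rcases j with t | (x | j)
  · rw [hc_l, hc_l]
    exact cg_add (cg_mul (h _) (cg_inv (h _) h0)) (cg_refl _ _)
  · rw [hc_u, hc_u]
    exact h _
  · rw [hc_r, hc_r]
    exact h _

theorem regular_hc (i : Fin (n + 1)) (q : Fin n → ℂ) {m : ℕ}
    {S : Set (Pt ℂ ((Fin (n + 1) ⊕ τ) × Fin (m + 1)))}
    (hS : ∀ z ∈ S, PowerSeries.coeff 0 (ar z (Sum.inl i)) ≠ 0) :
    RegularOn S fun z => jet m (hc i q (ar z)) := by
  have har : ∀ j, IsRA S fun z => ar z j := fun j k => (isPA_arK j k).isRF S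
  rintro ⟨j, k⟩
  rcases j with t | (x | j)
  · have h1 : IsRA S fun z => ar z (Sum.inl (i.succAbove t)) * (ar z (Sum.inl i))⁻¹ +
        PowerSeries.C (algebraMap ℂ (AlgebraicClosure ℂ) (-q t)) :=
      ra_add (ra_mul (har _) (ra_inv (har _) hS))
        (fun k => ((IsPA.C (IsPF.const (K := ℂ) (-q t))) k).isRF S)
    exact h1 k
  · exact har _ k
  · exact har _ k

/-- the relation for the germ -/
def QL (Q : RelA ℂ (Fin (n + 1) ⊕ τ)) (i : Fin (n + 1)) (q : Fin n → ℂ) (d : ℕ) :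
    RelA ℂ (Fin n ⊕ (Unit ⊕ τ)) := fun δ a =>
  ¬ PowerSeries.coeff 0 (δ (Sum.inr (Sum.inl ()))) = 0 ∧
    Q (ch i q δ) ((PowerSeries.coeff 0 (δ (Sum.inr (Sum.inl ())))) ^ d * a)

theorem cq_QL {Q : RelA ℂ (Fin (n + 1) ⊕ τ)} {r : ℕ} (hQ : CQ Q r) (i : Fin (n + 1))
    (q : Fin n → ℂ) (d : ℕ) : CQ (QL Q i q d) r := by
  refine (CQ.of_cyl (Cyl.c0 _ (Nat.zero_le r)).not).and (hQ.pull (pmap_ch i q r)
    (fun δ a => (PowerSeries.coeff 0 (δ (Sum.inr (Sum.inl ())))) ^ d * a) ?_ ?_)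
  · intro γ δ a h
    rw [h _ 0 (Nat.zero_le _)]
  · refine (IsPF.pow ?_ d).mul (IsPF.coord _)
    simp only [coeff_ar_zero]
    exact IsPF.coord _

section

variable (f : MvPolynomial (Fin (n + 1)) ℂ) (d : ℕ) (hf : f.IsHomogeneous d)
  (i : Fin (n + 1)) (q : Fin n → ℂ) {Q : RelA ℂ (Fin (n + 1) ⊕ τ)} {r : ℕ}
include hf

theorem line_bwd {N : ℕ} (δ : Arc ℂ (Fin n ⊕ (Unit ⊕ τ)))
    (h : Cd (fun δ a => QL Q i q d δ a ∧ Or (lp δ)) (rename Sum.inl (germAt i q f)) N δ) :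
    Cd (fun γ a => Q γ a ∧ Tb i q 1 (lp γ)) (rename Sum.inl f) N (ch i q δ) := by
  obtain ⟨h1, ⟨h2, h3⟩, h4⟩ := h
  rw [aeval_inl] at h1 h3
  refine ⟨?_, ?_, ?_, ?_⟩
  · rw [aeval_inl, aeval_ch i q f d hf]
    exact vn_mul _ h1
  · rw [aeval_inl, aeval_ch i q f d hf, coeff_mul_vn _ h1]
    have h5 : PowerSeries.coeff 0 (δ (Sum.inr (Sum.inl ())) ^ d) =
        PowerSeries.coeff 0 (δ (Sum.inr (Sum.inl ()))) ^ d := by
      simp only [PowerSeries.coeff_zero_eq_constantCoeff_apply, map_pow]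
    rw [h5]
    exact h3
  · change PowerSeries.coeff 0 (ch i q δ (Sum.inl i)) ≠ 0
    rw [ch_i]
    exact h2
  · intro t
    rw [aeval_an]
    change Vn 1 (ch i q δ (Sum.inl (i.succAbove t)) - _ * ch i q δ (Sum.inl i))
    rw [ch_i, ch_s, PowerSeries.algebraMap_apply]
    have h5 : δ (Sum.inr (Sum.inl ())) * (δ (Sum.inl t) + PowerSeries.C (algebraMap ℂ (AlgebraicClosure ℂ) (q t))) -
        PowerSeries.C (algebraMap ℂ (AlgebraicClosure ℂ) (q t)) * δ (Sum.inr (Sum.inl ())) =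
        δ (Sum.inr (Sum.inl ())) * δ (Sum.inl t) := by ring
    rw [h5]
    refine vn_mul _ ?_
    intro j hj
    have h6 : j = 0 := by omega
    rw [h6]
    exact h4 t

theorem line_fwd {N : ℕ} (γ : Arc ℂ (Fin (n + 1) ⊕ τ))
    (h : Cd (fun γ a => Q γ a ∧ Tb i q 1 (lp γ)) (rename Sum.inl f) N γ) :
    Cd (fun δ a => QL Q i q d δ a ∧ Or (lp δ)) (rename Sum.inl (germAt i q f)) N (hc i q γ) := by
  obtain ⟨h1, h2, h3, h4⟩ := h
  rw [aeval_inl] at h1 h2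
  have h3' : PowerSeries.coeff 0 (γ (Sum.inl i)) ≠ 0 := h3
  have h5 := ch_hc i q γ h3'
  have h6 := aeval_ch i q f d hf (hc i q γ)
  rw [h5, hc_u] at h6
  have h7 : PowerSeries.coeff 0 (γ (Sum.inl i) ^ d) = PowerSeries.coeff 0 (γ (Sum.inl i)) ^ d := by
    simp only [PowerSeries.coeff_zero_eq_constantCoeff_apply, map_pow]
  have h8 : Vn N (aeval (lp (hc i q γ)) (germAt i q f)) := by
    rw [h6, vn_unit (by rw [h7]; exact pow_ne_zero _ h3')] at h1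
    exact h1
  refine ⟨?_, ⟨?_, ?_⟩, ?_⟩
  · rw [aeval_inl]
    exact h8
  · rw [hc_u]
    exact h3'
  · rw [aeval_inl, h5, hc_u]
    rw [h6, coeff_mul_vn _ h8, h7] at h2
    exact h2
  · intro t
    change PowerSeries.coeff 0 (hc i q γ (Sum.inl t)) = 0
    rw [hc_l]
    have h9 := h4 t 0 one_pos
    rw [aeval_an, PowerSeries.algebraMap_apply] at h9
    change PowerSeries.coeff 0 (γ (Sum.inl (i.succAbove t)) -
      PowerSeries.C (algebraMap ℂ (AlgebraicClosure ℂ) (q t)) * γ (Sum.inl i)) = 0 at h9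
    rw [PowerSeries.coeff_zero_eq_constantCoeff_apply] at h3' h9 ⊢
    rw [map_sub, map_mul, PowerSeries.constantCoeff_C] at h9
    rw [map_add, map_mul, PowerSeries.constantCoeff_C, PowerSeries.constantCoeff_inv, map_neg]
    have h10 := mul_inv_cancel₀ h3'
    linear_combination (PowerSeries.constantCoeff (γ (Sum.inl i)))⁻¹ * h9 +
      algebraMap ℂ (AlgebraicClosure ℂ) (q t) * h10

variable {R : Type} [CommRing R] (M : Meas ℂ R) {v : R} (hv : M.L * v = 1)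
include hv

/-- **The arcs near a line.** -/
theorem sq_line (hQ : CQ Q r) :
    SQ M v (fun γ a => Q γ a ∧ Tb i q 1 (lp γ)) (rename Sum.inl f) =
      SQ M v (fun δ a => QL Q i q d δ a ∧ Or (lp δ)) (rename Sum.inl (germAt i q f)) := by
  ext N
  rw [coeff_SQ, coeff_SQ]
  obtain ⟨m, hNm, hqm, h1m⟩ : ∃ m, N ≤ m ∧ r ≤ m ∧ 1 ≤ m := ⟨max (max N r) 1, by omega, by omega,
    by omega⟩
  have hP : Cyl (Cd (fun γ a => Q γ a ∧ Tb i q 1 (lp γ)) (rename Sum.inl f) N) m :=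
    cyl_Cd ((hQ.mono hqm).and (CQ.of_cyl (cyl_lp ((cyl_Tb i q 1).mono h1m)))) _ hNm le_rfl
  have hP' : Cyl (Cd (fun δ a => QL Q i q d δ a ∧ Or (lp δ))
      (rename Sum.inl (germAt i q f))  N) m :=
    cyl_Cd ((cq_QL hQ i q d).and (CQ.of_cyl (cyl_OrL r))) _ hNm hqm
  refine vo_cv M hv ?_ hP hP' (hc i q) (ch i q) (regular_hc i q fun z hz => hz.2.2.1)
    (pmap_regular (pmap_ch i q m) _) (fun γ δ hγ h => cg_hc i q hγ.2.2.1 h)
    (fun γ δ _ hγ => (pmap_ch i q m).cg γ δ hγ) (line_fwd f d hf i q)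
    (line_bwd f d hf i q) ?_ ?_
  · rw [Fintype.card_sum, Fintype.card_sum, Fintype.card_sum, Fintype.card_fin, Fintype.card_fin,
      Fintype.card_unit]
    ring
  · rintro γ ⟨_, _, h3, _⟩ j
    rw [ch_hc i q γ h3]
    exact cg_refl _ _
  · rintro δ ⟨_, ⟨h2, _⟩, _⟩ j
    rw [hc_ch i q δ h2]
    exact cg_refl _ _

end

end Pool.Agent.H940.Q
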