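import Pool.Agent.H940.Q.Cone
import Pool.Agent.H940.Q.Line
import Pool.Agent.H940.F.Pair

set_option autoImplicit false
set_option linter.unusedSectionVars false
set_option linter.unusedVariables false

/-! # Forms with locally weighted homogeneous isolated singularities, with conditions on the
angular component -/

namespace Pool.Agent.H940.Q

open MvPolynomial Pool.Agent.W428.MOT Pool.Agent.TH192.MT Pool.Agent.TH192.DT Pool.Agent.Q49.CO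
open Pool.Agent.Q57.QM Pool.Agent.Y229 Pool.Agent.Q57.MC Pool.Agent.Q57.MD
open Pool.Agent.H940.Z Pool.Agent.H940.G
open Pool.Agent.H940.F (sf_line sf_or_pair)
open Pool.Agent.H940.LT (eval_homog)

/-- The germs at the origin for which the series with conditions on the angular component (and with
parameters) are rational, with finitely many pairs which give roots. -/
def AQ (M : Meas ℂ (MK ℂ)) {n : ℕ} (h : MvPolynomial (Fin n) ℂ) : Prop :=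
  h ≠ 0 ∧ ∃ S : Finset (ℤ × ℤ), (∀ s ∈ S, s.1 < 0 ∧ 0 < s.2 ∧
      SF (fun _ : Fin 1 => h) 0 ((s.1 : ℂ) / s.2)) ∧
    ∀ (τ : Type) [Fintype τ] (Q : RelA ℂ (Fin n ⊕ τ)) (q : ℕ), CQ Q q →
      SQ M (((Lu ℂ)⁻¹ : (MK ℂ)ˣ) : MK ℂ) (fun γ a => Q γ a ∧ Or (lp γ)) (rename Sum.inl h) ∈
        ratU (Lu ℂ) (S : Set (ℤ × ℤ))

variable {n : ℕ} {M : Meas ℂ (MK ℂ)} (hL : M.L = ((Lu ℂ : (MK ℂ)ˣ) : MK ℂ))
include hL

/-- weighted homogeneous polynomials with an isolated critical point -/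
theorem aq_whi {g : MvPolynomial (Fin n) ℂ} {w : Fin n → ℕ} {N : ℕ} (h : WHI g w N)
    (hn : 0 < n) : AQ M g := by
  classical
  refine ⟨h.ne hn, {(-1, 1), (-((∑ i, w i : ℕ) : ℤ), (N : ℤ))}, fun s hs => ?_,
    fun τ _ Q q hQ => ?_⟩
  · rw [Finset.mem_insert, Finset.mem_singleton] at hs
    rcases hs with rfl | rfl
    · refine ⟨by norm_num, by norm_num, ?_⟩
      have h1 := sf_neg_one g (h.ne hn) 0 (by
        rw [eval_zero]
        exact h.g0 hn)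
      simpa using h1
    · have h1 := h.sf hn
      have h2 : 0 < ∑ i, w i := Finset.sum_pos (fun i _ => h.wpos i) ⟨⟨0, hn⟩, Finset.mem_univ _⟩
      have h3 : 0 < N := lt_of_le_of_lt (Nat.zero_le _) (h.lt ⟨0, hn⟩)
      refine ⟨by simp only; omega, by simp only; omega, ?_⟩
      push_cast at h1 ⊢
      exact h1
  · exact whi_sq (Lu ℂ) hL h hn (by simp) (by simp) (hQ.and (CQ.of_cyl (cyl_OrL q)))

/-- formal coordinates -/
theorem aq_formal {h g : MvPolynomial (Fin n) ℂ} {w : Fin n → ℕ} {N : ℕ}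
    {η : Fin n → MvPowerSeries (Fin n) ℂ} (H : WHG h g w N η)
    (h0 : MvPolynomial.constantCoeff h = 0)
    (h1 : ∀ i, MvPolynomial.constantCoeff (MvPolynomial.pderiv i h) = 0) (hg : AQ M g) :
    AQ M h := by
  classical
  have hv : M.L * (((Lu ℂ)⁻¹ : (MK ℂ)ˣ) : MK ℂ) = 1 := by rw [hL, Units.mul_inv]
  obtain ⟨hne, S, hS, hz⟩ := hg
  have hne' : ∃ j : Fin 1, (fun _ : Fin 1 => g) j ≠ 0 := ⟨0, hne⟩
  have hT : Transf (fun _ : Fin 1 => h) (fun _ : Fin 1 => g) 0 :=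
    transfer_formal (fun _ : Fin 1 => h) (fun _ : Fin 1 => g) η id H.cc H.det (by
      rw [Set.range_const, Set.range_const]
      exact H.gen)
  obtain ⟨j, hj⟩ := ne_of_transf _ _ 0 hT hne'
  obtain ⟨u0, a, U, hu0, hA⟩ := exists_apx H h0 h1
  refine ⟨hj, S, fun s hs => ⟨(hS s hs).1, (hS s hs).2.1,
    sf_of_transf _ _ 0 hT hne' _ ((sf_iff _ hne' _).1 (hS s hs).2.2)⟩, fun τ _ Q q hQ => ?_⟩
  obtain ⟨Q', hQ', h2⟩ := sq_formal M hv hu0 hA hQ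
  rw [h2]
  exact hz τ Q' q hQ'

section

variable {f : MvPolynomial (Fin (n + 1)) ℂ} {d : ℕ} (hd : 2 ≤ d) (hf : f.IsHomogeneous d)
  (hf0 : f ≠ 0) (H : LH f)
include hd hf hf0 H

/-- the germs at the singular points -/
theorem germ_aq {s : Fin (n + 1) × (Fin n → ℂ)} (h : Sg f (pt s)) :
    AQ M (germAt s.1 s.2 f) := by
  have hn := pos_of_sg hd hf hf0 (pt_ne s) h
  obtain ⟨g, w, N, η, hg⟩ := H s.1 s.2 h
  have h0 := cc_germ hd hf hf0 h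
  have h1 := cc_pd_germ hd hf hf0 h
  exact aq_formal hL hg h0 h1 (aq_whi hL (whi hg h0 h1) hn)

/-- **The pairs of the singular lines.** -/
theorem exists_pairsQ : ∃ D : Finset (ℤ × ℤ), (∀ q ∈ D, q.1 < 0 ∧ 0 < q.2 ∧
      SF (fun _ : Fin 1 => f) 0 ((q.1 : ℂ) / q.2)) ∧ (-1, 1) ∈ D ∧
    ∀ s : Fin (n + 1) × (Fin n → ℂ), Cn s → Sg f (pt s) → ∀ (τ : Type) [Fintype τ]
      (Q : RelA ℂ (Fin (n + 1) ⊕ τ)) (q : ℕ), CQ Q q →
      SQ M (((Lu ℂ)⁻¹ : (MK ℂ)ˣ) : MK ℂ) (fun γ a => Q γ a ∧ Tb s.1 s.2 1 (lp γ))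
        (rename Sum.inl f) ∈ ratU (Lu ℂ) (D : Set (ℤ × ℤ)) := by
  classical
  have hv : M.L * (((Lu ℂ)⁻¹ : (MK ℂ)ˣ) : MK ℂ) = 1 := by rw [hL, Units.mul_inv]
  choose! hne S hS1 hS2 using fun (s : Fin (n + 1) × (Fin n → ℂ)) (h : Sg f (pt s)) =>
    germ_aq (M := M) hL hd hf hf0 H h
  set T := (finite_lines hd hf hf0 H).toFinset with hT
  refine ⟨insert (-1, 1) (T.biUnion S), ?_, Finset.mem_insert_self _ _, ?_⟩
  · intro q hq
    rcases Finset.mem_insert.1 hq with rfl | hq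
    · refine ⟨by norm_num, by norm_num, ?_⟩
      have h1 := sf_neg_one f hf0 0 (by
        have h2 := eval_homog f d hf 0 0
        rw [zero_pow (by omega), zero_mul, zero_smul] at h2
        exact h2)
      simpa using h1
    · obtain ⟨s, hs, hqs⟩ := Finset.mem_biUnion.1 hq
      have hs' := ((Set.Finite.mem_toFinset _).1 hs).2
      obtain ⟨h1, h2, h3⟩ := hS1 s hs' q hqs
      exact ⟨h1, h2, sf_line f d hf s.1 s.2 (hne s hs') _ h3⟩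
  · intro s hs1 hs2 τ _ Q q hQ
    rw [sq_line f d hf s.1 s.2 M hv hQ]
    refine rat_mono (Lu ℂ) ?_ (hS2 s hs2 (Unit ⊕ τ) _ q (cq_QL hQ s.1 s.2 d))
    intro q hq
    refine Finset.mem_coe.2 (Finset.mem_insert_of_mem (Finset.mem_biUnion.2 ⟨s, ?_, hq⟩))
    exact (Set.Finite.mem_toFinset _).2 ⟨hs1, hs2⟩

/-- **Series outside of the origin.** -/
theorem out_memQ (D : Set (ℤ × ℤ)) (hD1 : (-1, 1) ∈ D)
    (hD : ∀ s : Fin (n + 1) × (Fin n → ℂ), Cn s → Sg f (pt s) → ∀ (τ : Type) [Fintype τ]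
      (Q : RelA ℂ (Fin (n + 1) ⊕ τ)) (q : ℕ), CQ Q q →
      SQ M (((Lu ℂ)⁻¹ : (MK ℂ)ˣ) : MK ℂ) (fun γ a => Q γ a ∧ Tb s.1 s.2 1 (lp γ))
        (rename Sum.inl f) ∈ ratU (Lu ℂ) D)
    {τ : Type} [Fintype τ] (Q : RelA ℂ (Fin (n + 1) ⊕ τ)) (q : ℕ) (hQ : CQ Q q) :
    SQ M (((Lu ℂ)⁻¹ : (MK ℂ)ˣ) : MK ℂ) (fun γ a => Q γ a ∧ ¬ Or (lp γ)) (rename Sum.inl f) ∈
      ratU (Lu ℂ) D := by
  classical
  have hv : M.L * (((Lu ℂ)⁻¹ : (MK ℂ)ˣ) : MK ℂ) = 1 := by rw [hL, Units.mul_inv]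
  set T := (finite_lines hd hf hf0 H).toFinset with hT
  have hTm : ∀ s, s ∈ T ↔ Cn s ∧ Sg f (pt s) := fun s => Set.Finite.mem_toFinset _
  have hcT : Cyl (fun γ : Arc ℂ (Fin (n + 1) ⊕ τ) => ∃ s ∈ T, Tb s.1 s.2 1 (lp γ)) 1 := by
    have h1 : (fun γ : Arc ℂ (Fin (n + 1) ⊕ τ) => ∃ s ∈ T, Tb s.1 s.2 1 (lp γ)) =
        fun γ => ∃ s : T, Tb s.1.1 s.1.2 1 (lp γ) :=
      funext fun γ => propext ⟨fun ⟨s, hs, h⟩ => ⟨⟨s, hs⟩, h⟩, fun ⟨s, h⟩ => ⟨s.1, s.2, h⟩⟩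
    rw [h1]
    exact Cyl.ex fun s => cyl_lp (cyl_Tb _ _ 1)
  have hQo : CQ (fun γ a => Q γ a ∧ ¬ Or (lp γ)) q := hQ.and (CQ.of_cyl (cyl_OrL q).not)
  rw [SQ_splitC M hv hQo hcT (rename Sum.inl f)]
  refine Subalgebra.add_mem _ ?_ ?_
  · rw [SQ_congr M _ (Q := fun γ a => (Q γ a ∧ ¬ Or (lp γ)) ∧ ∃ s ∈ T, Tb s.1 s.2 1 (lp γ))
      (Q' := fun γ a => ∃ s ∈ T, (Q γ a ∧ ¬ Or (lp γ)) ∧ Tb s.1 s.2 1 (lp γ)) (rename Sum.inl f)
      fun γ a => ⟨fun ⟨h, s, hs, h2⟩ => ⟨s, hs, h, h2⟩, fun ⟨s, hs, h, h2⟩ => ⟨h, s, hs, h2⟩⟩]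
    rw [SQ_sum M hv T (q := max q 1) (fun s _ => (hQo.mono (le_max_left _ _)).and
      (CQ.of_cyl ((cyl_lp (cyl_Tb _ _ 1)).mono (le_max_right _ _)))) (by
        rintro s hs s' hs' hne γ a ⟨_, h2⟩ ⟨_, h3⟩
        obtain ⟨p, hp⟩ := origin_pt (lp γ)
        exact hne (((tb_on hp).1 h2).unique ((hTm s).1 hs).1 ((hTm s').1 hs').1
          ((tb_on hp).1 h3)))]
    exact Subalgebra.sum_mem _ fun s hs =>
      hD s ((hTm s).1 hs).1 ((hTm s).1 hs).2 τ _ q hQo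
  · refine SQ_bdd M (Lu ℂ) hL hD1 (rename Sum.inl f) 1 ((hQo.mono (le_max_left q 1)).and
      (CQ.of_cyl (hcT.mono (le_max_right q 1)).not)) fun γ a ⟨⟨h1, h1'⟩, h2⟩ => ?_
    by_contra hc
    push Not at hc
    obtain ⟨p, hp⟩ := origin_pt (lp γ)
    have hp0 : p ≠ 0 := by
      intro h0
      refine h1' fun j => ?_
      rw [hp, h0, Pi.zero_apply, map_zero]
    have hsg : Sg f p := by
      intro j
      have h3 := hc (Sum.inl j) 0 one_pos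
      rw [pderiv_inl, coeff_zero_aevalK] at h3
      have h4 : (fun j => PowerSeries.coeff 0 (lp γ j)) =
          fun j => algebraMap ℂ (AlgebraicClosure ℂ) (p j) := funext hp
      rw [h4] at h3
      exact (aeval_pt_zero _ _).1 h3
    obtain ⟨s, hs1, hs2⟩ := exists_On p hp0
    exact h2 ⟨s, (hTm s).2 ⟨hs1, hs2.sg hf hsg⟩, (tb_on hp).2 hs2⟩

end

/-- **All arcs, with conditions on the angular component.** -/
theorem form_all {f : MvPolynomial (Fin (n + 1)) ℂ} {d : ℕ} (hd : 3 ≤ d) (hf : f.IsHomogeneous d)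
    (hf0 : f ≠ 0) (H : LH f) : ∃ S : Finset (ℤ × ℤ), (∀ s ∈ S, s.1 < 0 ∧ 0 < s.2 ∧
      SF (fun _ : Fin 1 => f) 0 ((s.1 : ℂ) / s.2)) ∧
    ∀ (τ : Type) [Fintype τ] (Q : RelA ℂ (Fin (n + 1) ⊕ τ)) (q : ℕ), CQ Q q →
      SQ M (((Lu ℂ)⁻¹ : (MK ℂ)ˣ) : MK ℂ) Q (rename Sum.inl f) ∈
        ratU (Lu ℂ) (S : Set (ℤ × ℤ)) := by
  classical
  have hd2 : 2 ≤ d := by omega
  obtain ⟨D, hD, hD1, hDl⟩ := exists_pairsQ (M := M) hL hd2 hf hf0 H
  have hsc : ∀ γ : Arc ℂ (Fin (n + 1)), aeval (fun i => PowerSeries.X * γ i) f =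
      PowerSeries.X ^ d * aeval γ f := fun γ => aeval_homog f d hf γ _
  have hout : ∀ (p : ℤ × ℤ) (τ : Type) [Fintype τ] (Q : RelA ℂ (Fin (n + 1) ⊕ τ)) (q : ℕ),
      CQ Q q → SQ M (((Lu ℂ)⁻¹ : (MK ℂ)ˣ) : MK ℂ) (fun γ a => Q γ a ∧ ¬ Or (lp γ))
        (rename Sum.inl f) ∈ ratU (Lu ℂ) ((insert p D : Finset (ℤ × ℤ)) : Set (ℤ × ℤ)) := by
    intro p τ _ Q q hQ
    refine rat_mono (Lu ℂ) (Finset.coe_subset.2 (Finset.subset_insert p D)) ?_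
    exact out_memQ hL hd2 hf hf0 H _ (Finset.mem_coe.2 hD1) hDl Q q hQ
  rcases sf_or_pair hd hf hf0 H with h1 | ⟨A, A', a, e, hAA, hAA', he, ha, hsf, hsec⟩
  · refine ⟨insert (-((n + 1 : ℕ) : ℤ), (d : ℤ)) D, fun q hq => ?_, fun τ _ Q q hQ => ?_⟩
    · rcases Finset.mem_insert.1 hq with rfl | hq
      · refine ⟨by simp only; omega, by simp only; omega, ?_⟩
        simp only
        push_cast at h1 ⊢
        exact h1
      · exact hD q hq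
    · refine all_of_free M (Lu ℂ) hL _ f d hsc (hout _ τ) ?_ hQ
      refine free_scalar M (Lu ℂ) hL _ f d hsc (hout _ τ) (by omega) ?_
      rw [Fintype.card_fin]
      exact Finset.mem_coe.2 (Finset.mem_insert_self _ _)
  · refine ⟨insert (-((∑ i, a i : ℕ) : ℤ), (e : ℤ)) D, fun q hq => ?_, fun τ _ Q q hQ => ?_⟩
    · rcases Finset.mem_insert.1 hq with rfl | hq
      · refine ⟨by simp only; omega, by simp only; omega, ?_⟩
        simp only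
        push_cast at hsf ⊢
        exact hsf
      · exact hD q hq
    · refine all_of_free M (Lu ℂ) hL _ f d hsc (hout _ τ) ?_ hQ
      exact free_second M (Lu ℂ) hL _ f d hsc (hout _ τ) hAA hAA' a e he hsec
        (Finset.mem_coe.2 (Finset.mem_insert_self _ _))

/-- forms of degree `≥ 3` in the class `LH` -/
theorem aq_form {f : MvPolynomial (Fin (n + 1)) ℂ} {d : ℕ} (hd : 3 ≤ d) (hf : f.IsHomogeneous d)
    (hf0 : f ≠ 0) (H : LH f) : AQ M f := by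
  obtain ⟨S, hS, hz⟩ := form_all (M := M) hL hd hf hf0 H
  exact ⟨hf0, S, hS, fun τ _ Q q hQ => hz τ _ q (hQ.and (CQ.of_cyl (cyl_OrL q)))⟩

end Pool.Agent.H940.Q
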