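import Pool.Agent.H940.Q.Whi
import Pool.Agent.H940.G.Formal
import Pool.Graph.R_pool_sql_team_seeded_3997aac3.Q57.MD.FVol

set_option autoImplicit false
set_option linter.unusedSectionVars false
set_option linter.unusedVariables false

/-! # Newton's method for arcs -/

namespace Pool.Agent.H940.Q

open MvPolynomial Pool.Agent.W428.MOT Pool.Agent.TH192.MT Pool.Agent.TH192.DT Pool.Agent.Q49.CO
open Pool.Agent.Q57.QM Pool.Agent.H940.Z

variable {n : ℕ}

/-- the Jacobian matrix at the origin -/
noncomputable def jc (a : Fin n → MvPolynomial (Fin n) ℂ) : Matrix (Fin n) (Fin n) ℂ :=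
  Matrix.of fun t s => constantCoeff (pderiv s (a t))

theorem dvd_cc (P : MvPolynomial (Fin n) ℂ) {x : Arc ℂ (Fin n)} (hx : Or x) :
    (PowerSeries.X : PowerSeries (AlgebraicClosure ℂ)) ∣ aeval x P -
      PowerSeries.C (algebraMap ℂ (AlgebraicClosure ℂ) (constantCoeff P)) := by
  rw [PowerSeries.X_dvd_iff, ← PowerSeries.coeff_zero_eq_constantCoeff_apply, map_sub,
    coeff_zero_aevalK]
  have h1 : (fun i => PowerSeries.coeff 0 (x i)) = fun i => algebraMap ℂ (AlgebraicClosure ℂ) ((0 : Fin n → ℂ) i) := by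
    funext i
    rw [hx i, Pi.zero_apply, map_zero]
  rw [h1, aeval_pt, eval_zero, PowerSeries.coeff_zero_C, sub_self]

/-- the values at arcs which differ by `t ^ k u` -/
theorem newton_step (a : Fin n → MvPolynomial (Fin n) ℂ) {x : Arc ℂ (Fin n)} (hx : Or x) {k : ℕ}
    (hk : 1 ≤ k) (u : Arc ℂ (Fin n)) (t : Fin n) :
    (PowerSeries.X : PowerSeries (AlgebraicClosure ℂ)) ^ (k + 1) ∣
      aeval (fun i => x i + PowerSeries.X ^ k * u i) (a t) - aeval x (a t) -
        PowerSeries.X ^ k * ∑ s, PowerSeries.C (algebraMap ℂ (AlgebraicClosure ℂ) (jc a t s)) * u s := by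
  have h1 := (pow_dvd_pow (PowerSeries.X : PowerSeries (AlgebraicClosure ℂ)) (show k + 1 ≤ 2 * k by omega)).trans
    (taylor2 (a t) k x u)
  have h2 : (PowerSeries.X : PowerSeries (AlgebraicClosure ℂ)) ^ (k + 1) ∣ PowerSeries.X ^ k *
      ∑ s, (aeval x (pderiv s (a t)) - PowerSeries.C (algebraMap ℂ (AlgebraicClosure ℂ) (jc a t s))) * u s := by
    rw [pow_succ]
    exact mul_dvd_mul_left _ (Finset.dvd_sum fun s _ => Dvd.dvd.mul_right (dvd_cc _ hx) _)
  have h3 := dvd_add h1 h2
  have h4 : aeval (fun i => x i + PowerSeries.X ^ k * u i) (a t) - aeval x (a t) -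
      PowerSeries.X ^ k * ∑ s, aeval x (pderiv s (a t)) * u s + PowerSeries.X ^ k *
      ∑ s, (aeval x (pderiv s (a t)) - PowerSeries.C (algebraMap ℂ (AlgebraicClosure ℂ) (jc a t s))) * u s =
      aeval (fun i => x i + PowerSeries.X ^ k * u i) (a t) - aeval x (a t) -
        PowerSeries.X ^ k * ∑ s, PowerSeries.C (algebraMap ℂ (AlgebraicClosure ℂ) (jc a t s)) * u s := by
    have h5 : ∑ s, (aeval x (pderiv s (a t)) - PowerSeries.C (algebraMap ℂ (AlgebraicClosure ℂ) (jc a t s))) * u s =
        ∑ s, aeval x (pderiv s (a t)) * u s -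
          ∑ s, PowerSeries.C (algebraMap ℂ (AlgebraicClosure ℂ) (jc a t s)) * u s := by
      rw [← Finset.sum_sub_distrib]
      exact Finset.sum_congr rfl fun s _ => sub_mul _ _ _
    rw [h5]
    ring
  rw [h4] at h3
  exact h3

/-- matrices of constants -/
theorem mul_const {A B : Matrix (Fin n) (Fin n) ℂ} (h : A * B = 1) (c : Arc ℂ (Fin n)) (t : Fin n) :
    ∑ s, PowerSeries.C (algebraMap ℂ (AlgebraicClosure ℂ) (A t s)) *
      ∑ r, PowerSeries.C (algebraMap ℂ (AlgebraicClosure ℂ) (B s r)) * c r = c t := by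
  have h1 := la_la A B c
  rw [h, la_one] at h1
  exact congrFun h1 t

theorem cc_aeval' (b : Fin n → MvPolynomial (Fin n) ℂ) (hb : ∀ t, constantCoeff (b t) = 0)
    (P : MvPolynomial (Fin n) ℂ) : constantCoeff (aeval b P) = constantCoeff P := by
  have h1 : (constantCoeff : MvPolynomial (Fin n) ℂ →+* ℂ).comp
      (aeval b : MvPolynomial (Fin n) ℂ →ₐ[ℂ] MvPolynomial (Fin n) ℂ).toRingHom =
      constantCoeff := by
    apply ringHom_ext
    · intro r
      simp
    · intro i
      simp [hb]
  exact RingHom.congr_fun h1 P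

theorem or_pm (b : Fin n → MvPolynomial (Fin n) ℂ) (hb : ∀ t, constantCoeff (b t) = 0)
    {x : Arc ℂ (Fin n)} (hx : Or x) : Or fun t => aeval x (b t) := by
  intro t
  have h1 := dvd_cc (b t) hx
  rw [hb, map_zero, map_zero, sub_zero, PowerSeries.X_dvd_iff,
    ← PowerSeries.coeff_zero_eq_constantCoeff_apply] at h1
  exact h1

/-- **Newton's method.** -/
theorem exists_newton (a : Fin n → MvPolynomial (Fin n) ℂ) (ha : ∀ t, constantCoeff (a t) = 0)
    (hdet : (jc a).det ≠ 0) (k : ℕ) :
    ∃ b : Fin n → MvPolynomial (Fin n) ℂ, (∀ t, constantCoeff (b t) = 0) ∧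
      ∀ y : Arc ℂ (Fin n), Or y → ∀ t, (PowerSeries.X : PowerSeries (AlgebraicClosure ℂ)) ^ (k + 1) ∣
        aeval (fun s => aeval y (b s)) (a t) - y t := by
  classical
  have hu : IsUnit (jc a).det := isUnit_iff_ne_zero.2 hdet
  induction k with
  | zero =>
    refine ⟨fun _ => 0, fun t => map_zero _, fun y hy t => ?_⟩
    have h0 : Or fun s => aeval y ((fun _ : Fin n => (0 : MvPolynomial (Fin n) ℂ)) s) := by
      intro s
      simp only [map_zero]
    rw [zero_add, pow_one]
    refine dvd_sub ?_ ?_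
    · have h1 := dvd_cc (a t) h0
      rwa [ha, map_zero, map_zero, sub_zero] at h1
    · rw [PowerSeries.X_dvd_iff, ← PowerSeries.coeff_zero_eq_constantCoeff_apply]
      exact hy t
  | succ k ih =>
    obtain ⟨b, hb, hab⟩ := ih
    refine ⟨fun s => b s - ∑ t, C ((jc a)⁻¹ s t) * (aeval b (a t) - X t), fun s => ?_,
      fun y hy t => ?_⟩
    · rw [map_sub, hb, map_sum, zero_sub, neg_eq_zero]
      refine Finset.sum_eq_zero fun t _ => ?_
      rw [map_mul, map_sub, cc_aeval' b hb, ha, constantCoeff_X, sub_zero, mul_zero]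
    · choose c hc using hab y hy
      have hor := or_pm b hb hy
      have h1 : (fun s => aeval y (b s - ∑ t, C ((jc a)⁻¹ s t) * (aeval b (a t) - X t))) =
          fun s => aeval y (b s) + PowerSeries.X ^ (k + 1) *
            (-∑ t, PowerSeries.C (algebraMap ℂ (AlgebraicClosure ℂ) ((jc a)⁻¹ s t)) * c t) := by
        funext s
        rw [map_sub, map_sum, mul_neg, ← sub_eq_add_neg, Finset.mul_sum]
        congr 1
        refine Finset.sum_congr rfl fun t _ => ?_
        rw [map_mul, algHom_C, PowerSeries.algebraMap_apply, map_sub, aeval_X, comp_aeval_apply,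
          hc t]
        ring
      rw [h1]
      have h2 := newton_step a hor (show 1 ≤ k + 1 by omega)
        (fun s => -∑ t, PowerSeries.C (algebraMap ℂ (AlgebraicClosure ℂ) ((jc a)⁻¹ s t)) * c t) t
      have h3 : ∑ s, PowerSeries.C (algebraMap ℂ (AlgebraicClosure ℂ) (jc a t s)) *
          (-∑ t, PowerSeries.C (algebraMap ℂ (AlgebraicClosure ℂ) ((jc a)⁻¹ s t)) * c t) = - c t := by
        have h4 := mul_const (Matrix.mul_nonsing_inv (jc a) hu) c t
        simp only [mul_neg, Finset.sum_neg_distrib]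
        rw [h4]
      rw [h3] at h2
      have h4 : aeval (fun s => aeval y (b s) + PowerSeries.X ^ (k + 1) *
            (-∑ t, PowerSeries.C (algebraMap ℂ (AlgebraicClosure ℂ) ((jc a)⁻¹ s t)) * c t)) (a t) - y t =
          aeval (fun s => aeval y (b s) + PowerSeries.X ^ (k + 1) *
            (-∑ t, PowerSeries.C (algebraMap ℂ (AlgebraicClosure ℂ) ((jc a)⁻¹ s t)) * c t)) (a t) -
            aeval (fun s => aeval y (b s)) (a t) - PowerSeries.X ^ (k + 1) * (-c t) := by
        linear_combination hc t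
      rw [h4]
      exact h2

/-- the map of arcs is injective, in each order -/
theorem newton_inj (a : Fin n → MvPolynomial (Fin n) ℂ) (hdet : (jc a).det ≠ 0)
    {x x' : Arc ℂ (Fin n)} (hx : Or x) (hx' : Or x') (m : ℕ)
    (h : ∀ t, (PowerSeries.X : PowerSeries (AlgebraicClosure ℂ)) ^ m ∣ aeval x (a t) - aeval x' (a t)) (s : Fin n) :
    (PowerSeries.X : PowerSeries (AlgebraicClosure ℂ)) ^ m ∣ x s - x' s := by
  classical
  have hu : IsUnit (jc a).det := isUnit_iff_ne_zero.2 hdet
  revert s
  induction m with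
  | zero =>
    intro s
    rw [pow_zero]
    exact one_dvd _
  | succ m ih =>
    rcases Nat.eq_zero_or_pos m with rfl | hm
    · intro s
      rw [zero_add, pow_one, PowerSeries.X_dvd_iff,
        ← PowerSeries.coeff_zero_eq_constantCoeff_apply, map_sub, hx s, hx' s, sub_zero]
    · have h1 := ih fun t => (pow_dvd_pow _ (Nat.le_succ m)).trans (h t)
      choose u hu' using h1
      have h2 : x = fun s => x' s + PowerSeries.X ^ m * u s := by
        funext s
        linear_combination hu' s
      have h3 : ∀ t, (PowerSeries.X : PowerSeries (AlgebraicClosure ℂ)) ∣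
          ∑ s, PowerSeries.C (algebraMap ℂ (AlgebraicClosure ℂ) (jc a t s)) * u s := by
        intro t
        have h4 := newton_step a hx' (show 1 ≤ m from hm) u t
        rw [← h2] at h4
        have h5 := dvd_sub (h t) h4
        have h6 : aeval x (a t) - aeval x' (a t) - (aeval x (a t) - aeval x' (a t) -
            PowerSeries.X ^ m * ∑ s, PowerSeries.C (algebraMap ℂ (AlgebraicClosure ℂ) (jc a t s)) * u s) =
            PowerSeries.X ^ m * ∑ s, PowerSeries.C (algebraMap ℂ (AlgebraicClosure ℂ) (jc a t s)) * u s := by ring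
        rw [h6, pow_succ] at h5
        exact (mul_dvd_mul_iff_left (pow_ne_zero m PowerSeries.X_ne_zero)).1 h5
      intro s
      rw [hu' s, pow_succ]
      refine mul_dvd_mul_left _ ?_
      rw [← mul_const (Matrix.nonsing_inv_mul (jc a) hu) u s]
      exact Finset.dvd_sum fun t _ => Dvd.dvd.mul_left (h3 t) _

end Pool.Agent.H940.Q
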