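import Pool.Agent.H940.Q.Zeta

set_option autoImplicit false

/-! # The statements for the zeta functions of forms -/

namespace Pool.Agent.H940.Q

open MvPolynomial Pool.Agent.W428.MOT Pool.Agent.TH192.MT Pool.Agent.H940.G
open Pool.Agent.Y229 Pool.Agent.Q57.MC Pool.Agent.Q57.MD
open Pool.Agent.TH192.MU (zetaC IsTwistedTop)
open Pool.Agent.W375.MG (zetaW zetaOrd)
open Pool.Agent.H628R4.TP (IsBFunction IsLocalBFunction)

variable {n : ℕ} {f : MvPolynomial (Fin (n + 1)) ℂ} {d : ℕ} (hd : 3 ≤ d)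
    (hf : f.IsHomogeneous d) (hf0 : f ≠ 0) (H : LH f)
include hd hf hf0 H

/-- one finite set of pairs for all series -/
theorem rows_all : ∃ S : Finset (ℤ × ℤ), (∀ q ∈ S, q.1 < 0 ∧ 0 < q.2 ∧
      (∀ b : Polynomial ℂ, IsBFunction f b → b.eval ((q.1 : ℂ) / q.2) = 0) ∧
      ∀ b : Polynomial ℂ, IsLocalBFunction f b → b.eval ((q.1 : ℂ) / q.2) = 0) ∧
    (∀ (W : Set (Pt ℂ (Fin (n + 1)))) (E : Set (AlgebraicClosure ℂ)), Constr W →
      Constr {z : Pt ℂ Unit | z () ∈ E} → zetaM f W E ∈ ratRing ℂ (S : Set (ℤ × ℤ))) ∧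
    (∀ x : Fin (n + 1) → ℂ, zetaX f x ∈ ratRing ℂ (S : Set (ℤ × ℤ))) ∧
    ∀ k : ℕ, zetaC f k ∈ ratRing ℂ (S : Set (ℤ × ℤ)) := by
  obtain ⟨S, hS, h1⟩ := zeta_all hd hf hf0 H
  exact ⟨S, fun q hq => ⟨(hS q hq).1, (hS q hq).2.1,
    fun b hb => sf_forced (hS q hq).2.2 b (locEq1_of_eq f b hb),
    fun b hb => (hS q hq).2.2.localBI b (localBI_one f b hb)⟩, h1⟩

end Pool.Agent.H940.Q
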