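import Pool.Agent.H940.Q.Bdd

set_option autoImplicit false
set_option linter.unusedSectionVars false
set_option linter.unusedVariables false

/-! # Multiplication of some of the coordinates by powers of `t` -/

namespace Pool.Agent.H940.Q

open MvPolynomial Pool.Agent.W428.MOT Pool.Agent.TH192.MT Pool.Agent.TH192.DT Pool.Agent.Q49.CO
open Pool.Agent.Q57.QM Pool.Agent.H940.Z

variable {K : Type} [Field K] {σ σ' σ'' τ : Type}

theorem PMap.comp {Φ : Arc K σ → Arc K σ'} {Ψ : Arc K σ' → Arc K σ''} {m : ℕ} (hΨ : PMap Ψ m)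
    (hΦ : PMap Φ m) : PMap (fun γ => Ψ (Φ γ)) m where
  cg := fun γ δ h => hΨ.cg _ _ (hΦ.cg _ _ h)
  pf := fun i j hj => by
    have h1 := (hΨ.pf i j hj).comp (fun (z : Pt K (σ × Fin (m + 1))) (x : σ' × Fin (m + 1)) =>
      PowerSeries.coeff (x.2 : ℕ) (Φ (ar z) x.1)) fun x => hΦ.pf x.1 x.2 (by omega)
    refine (congrArg IsPF (funext fun z => ?_)).mp h1
    exact (hΨ.cg _ _ (fun i => cg_jet m (Φ (ar z)) i) i j hj).symm

theorem pmap_inl (m : ℕ) : PMap (fun (γ : Arc K (σ ⊕ τ)) (i : σ) => γ (Sum.inl i)) m :=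
  pmap_reindex _ m

theorem pmap_inr (m : ℕ) : PMap (fun (γ : Arc K (σ ⊕ τ)) (i : τ) => γ (Sum.inr i)) m :=
  pmap_reindex _ m

theorem pmap_id (m : ℕ) : PMap (fun (γ : Arc K σ) => γ) m :=
  pmap_reindex (fun i => i) m

/-- two maps together -/
theorem PMap.elim {Φ : Arc K σ → Arc K σ'} {Ψ : Arc K σ → Arc K σ''} {m : ℕ} (hΦ : PMap Φ m)
    (hΨ : PMap Ψ m) : PMap (fun γ (i : σ' ⊕ σ'') => Sum.elim (Φ γ) (Ψ γ) i) m where
  cg := by
    rintro γ δ h (i | i)
    · exact hΦ.cg _ _ h i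
    · exact hΨ.cg _ _ h i
  pf := by
    rintro (i | i) j hj
    · exact hΦ.pf i j hj
    · exact hΨ.pf i j hj

theorem isPA_arK {m : ℕ} (i : σ) : IsPA fun z : Pt K (σ × Fin (m + 1)) => ar z i := by
  intro j
  have h1 : (fun z : Pt K (σ × Fin (m + 1)) => PowerSeries.coeff j (ar z i)) =
      fun z => if h : j < m + 1 then z (i, ⟨j, h⟩) else 0 := by
    funext z
    rw [coeff_ar]
  rw [h1]
  by_cases h : j < m + 1
  · simp only [h, dif_pos]
    exact IsPF.coord _
  · simp only [h, dif_neg, not_false_eq_true]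
    exact IsPF.zero

/-- maps which are given by polynomials -/
theorem pmap_poly (P : σ' → MvPolynomial σ K) (m : ℕ) :
    PMap (fun (γ : Arc K σ) i => aeval γ (P i)) m where
  cg := fun γ δ h i => cg_aevalK (P i) m γ δ h
  pf := fun i j hj => pf_coeffK (fun z => z) (fun i => IsPF.coord _) _ _

section

variable [Fintype σ] [DecidableEq σ]

theorem pmap_la (A : Matrix σ σ K) (m : ℕ) : PMap (fun γ => la A γ) m where
  cg := fun γ δ h i j hj => by
    rw [coeff_la, coeff_la]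
    exact Finset.sum_congr rfl fun l _ => by rw [h l j hj]
  pf := fun i j hj => by
    simp only [coeff_la]
    exact IsPF.sum _ _ fun l _ => (IsPF.const _).mul (isPA_arK l j)

theorem pmap_ts (a : σ → ℕ) (m : ℕ) : PMap (fun γ : Arc K σ => ts a γ) m where
  cg := fun γ δ h i j hj => by
    unfold ts
    rw [PowerSeries.coeff_X_pow_mul', PowerSeries.coeff_X_pow_mul']
    split_ifs with h1
    · exact h i _ (by omega)
    · rfl
  pf := fun i j hj => ((IsPA.X.pow (a i)).mul (isPA_arK i)) j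

theorem pmap_tt (A B : Matrix σ σ K) (a : σ → ℕ) (m : ℕ) :
    PMap (fun γ : Arc K σ => tt A B a γ) m :=
  (pmap_la B m).comp ((pmap_ts a m).comp (pmap_la A m))

variable {R : Type} [CommRing R] (M : Meas K R) {v : R} (hv : M.L * v = 1)
include hv

/-- **The series on the image of `tt`.** -/
theorem SQ_tt {A B : Matrix σ σ K} (hAB : A * B = 1) (hBA : B * A = 1) (a : σ → ℕ)
    (f : MvPolynomial σ K) (e : ℕ)
    (hf : ∀ γ : Arc K σ, aeval (tt A B a γ) f = PowerSeries.X ^ e * aeval γ f)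
    {Q : RelA K σ} {q : ℕ} (hQ : CQ Q q) (h : ∀ γ b, Q γ b → ∀ i, Vn (a i) (la A γ i)) :
    SQ M v Q f = PowerSeries.C (v ^ (∑ i, a i)) *
      (PowerSeries.C (vo M v fun γ => Q (tt A B a γ) 0) * ∑ j ∈ Finset.range e, PowerSeries.X ^ j +
        PowerSeries.X ^ e * SQ M v (fun γ b => Q (tt A B a γ) b) f) := by
  ext N
  rw [PowerSeries.coeff_C_mul, map_add, coeff_geo, PowerSeries.coeff_X_pow_mul', coeff_SQ]
  have hPN : Cyl (Cd Q f N) (max q N) := cyl_Cd hQ f (by omega) (by omega)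
  rw [vo_tt M hv hPN hAB hBA a fun γ hγ => h γ _ hγ.2]
  congr 1
  by_cases hN : N < e
  · rw [if_pos hN, if_neg (by omega), add_zero]
    refine vo_congr M fun γ => ?_
    unfold Cd
    rw [hf, vn_X_pow_iff]
    have h1 : N - e = 0 := by omega
    have h2 : PowerSeries.coeff N (PowerSeries.X ^ e * aeval γ f) = 0 := by
      rw [PowerSeries.coeff_X_pow_mul', if_neg (by omega)]
    rw [h1, h2]
    exact ⟨fun h => h.2, fun h => ⟨fun j hj => absurd hj (Nat.not_lt_zero j), h⟩⟩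
  · rw [if_neg hN, if_pos (by omega), zero_add, coeff_SQ]
    refine vo_congr M fun γ => ?_
    unfold Cd
    rw [hf, vn_X_pow_iff, PowerSeries.coeff_X_pow_mul', if_pos (by omega)]

end

section left

variable [Fintype σ] [DecidableEq σ] [Fintype τ]

/-- the left part of the coordinates -/
def lp (γ : Arc K (σ ⊕ τ)) : Arc K σ := fun i => γ (Sum.inl i)

/-- the map `tt` on the left part of the coordinates -/
noncomputable def tl (A B : Matrix σ σ K) (a : σ → ℕ) (γ : Arc K (σ ⊕ τ)) : Arc K (σ ⊕ τ) :=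
  fun i => Sum.elim (tt A B a (lp γ)) (fun j => γ (Sum.inr j)) i

theorem pmap_tl (A B : Matrix σ σ K) (a : σ → ℕ) (m : ℕ) :
    PMap (fun γ : Arc K (σ ⊕ τ) => tl A B a γ) m :=
  ((pmap_tt A B a m).comp (pmap_inl m)).elim (pmap_inr m)

theorem lp_tl (A B : Matrix σ σ K) (a : σ → ℕ) (γ : Arc K (σ ⊕ τ)) :
    lp (tl A B a γ) = tt A B a (lp γ) := rfl

theorem tl_inr (A B : Matrix σ σ K) (a : σ → ℕ) (γ : Arc K (σ ⊕ τ)) (j : τ) :
    tl A B a γ (Sum.inr j) = γ (Sum.inr j) := rfl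

theorem la_blocks [DecidableEq τ] (A : Matrix σ σ K) (γ : Arc K (σ ⊕ τ)) :
    la (Matrix.fromBlocks A 0 0 1) γ = fun i => Sum.elim (la A (lp γ)) (fun j => γ (Sum.inr j)) i := by
  funext i
  rcases i with i | i
  · unfold la
    rw [Fintype.sum_sum_type]
    simp only [Matrix.fromBlocks_apply₁₁, Matrix.fromBlocks_apply₁₂, Matrix.zero_apply, map_zero,
      zero_mul, Finset.sum_const_zero, add_zero, Sum.elim_inl]
    rfl
  · unfold la
    rw [Fintype.sum_sum_type]
    simp only [Matrix.fromBlocks_apply₂₁, Matrix.fromBlocks_apply₂₂, Matrix.zero_apply, map_zero,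
      zero_mul, Finset.sum_const_zero, zero_add, Sum.elim_inr]
    rw [Finset.sum_eq_single i]
    · rw [Matrix.one_apply_eq, map_one, map_one, one_mul]
    · intro j _ hj
      rw [Matrix.one_apply_ne hj.symm, map_zero, map_zero, zero_mul]
    · intro h
      exact absurd (Finset.mem_univ i) h

theorem tl_eq [DecidableEq τ] (A B : Matrix σ σ K) (a : σ → ℕ) (γ : Arc K (σ ⊕ τ)) :
    tl A B a γ = tt (Matrix.fromBlocks A 0 0 1) (Matrix.fromBlocks B 0 0 1)
      (fun i => Sum.elim a (fun _ => 0) i) γ := by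
  unfold tt
  rw [la_blocks, la_blocks]
  funext i
  rcases i with i | i
  · rfl
  · simp only [Sum.elim_inr]
    unfold ts
    simp only [Sum.elim_inr, pow_zero, one_mul]
    rfl

variable {R : Type} [CommRing R] (M : Meas K R) {v : R} (hv : M.L * v = 1)
include hv

/-- **The series on the image of `tl`.** -/
theorem SQ_tl {A B : Matrix σ σ K} (hAB : A * B = 1) (hBA : B * A = 1) (a : σ → ℕ)
    (f : MvPolynomial σ K) (e : ℕ)
    (hf : ∀ γ : Arc K σ, aeval (tt A B a γ) f = PowerSeries.X ^ e * aeval γ f)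
    {Q : RelA K (σ ⊕ τ)} {q : ℕ} (hQ : CQ Q q) (h : ∀ γ b, Q γ b → ∀ i, Vn (a i) (la A (lp γ) i)) :
    SQ M v Q (rename Sum.inl f) = PowerSeries.C (v ^ (∑ i, a i)) *
      (PowerSeries.C (vo M v fun γ => Q (tl A B a γ) 0) * ∑ j ∈ Finset.range e, PowerSeries.X ^ j +
        PowerSeries.X ^ e * SQ M v (fun γ b => Q (tl A B a γ) b) (rename Sum.inl f)) := by
  classical
  have hab : Matrix.fromBlocks A 0 0 (1 : Matrix τ τ K) * Matrix.fromBlocks B 0 0 1 = 1 := by
    rw [Matrix.fromBlocks_multiply]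
    simp [hAB]
  have hba : Matrix.fromBlocks B 0 0 (1 : Matrix τ τ K) * Matrix.fromBlocks A 0 0 1 = 1 := by
    rw [Matrix.fromBlocks_multiply]
    simp [hBA]
  have h1 := SQ_tt M hv hab hba (fun i => Sum.elim a (fun _ => 0) i) (rename Sum.inl f) e
    (fun γ => by
      rw [← tl_eq, aeval_rename, aeval_rename]
      exact hf (lp γ)) hQ (fun γ b hγ i => by
      rw [la_blocks]
      rcases i with i | i
      · exact h γ b hγ i
      · exact fun j hj => absurd hj (Nat.not_lt_zero j))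
  rw [h1]
  have h2 : ∑ i : σ ⊕ τ, (fun i => Sum.elim a (fun _ => 0) i) i = ∑ i, a i := by
    rw [Fintype.sum_sum_type]
    simp
  rw [h2]
  simp only [← tl_eq]

end left

end Pool.Agent.H940.Q
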