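import Pool.Agent.H940.Q.Scale
import Pool.Agent.H940.Z.Whi

set_option autoImplicit false
set_option linter.unusedSectionVars false
set_option linter.unusedVariables false

/-! # Weighted homogeneous isolated singularities, with conditions on the angular component -/

namespace Pool.Agent.H940.Q

open MvPolynomial Pool.Agent.W428.MOT Pool.Agent.TH192.MT Pool.Agent.TH192.DT Pool.Agent.Q49.CO
open Pool.Agent.Q57.QM Pool.Agent.H940.Z

/-- the relation does not depend on the left part of the arc -/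
def Free {K : Type} [Field K] {σ τ : Type} (Q : RelA K (σ ⊕ τ)) : Prop :=
  ∀ (γ δ : Arc K (σ ⊕ τ)) b, (∀ j, γ (Sum.inr j) = δ (Sum.inr j)) → (Q γ b ↔ Q δ b)

/-- the relation at the left part `0` -/
def atZ {K : Type} [Field K] {σ τ : Type} (Q : RelA K (σ ⊕ τ)) : RelA K (σ ⊕ τ) := fun γ b =>
  Q (fun i => Sum.elim (fun _ => 0) (fun j => γ (Sum.inr j)) i) b

theorem free_atZ {K : Type} [Field K] {σ τ : Type} (Q : RelA K (σ ⊕ τ)) : Free (atZ Q) := by
  intro γ δ b h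
  unfold atZ
  have h1 : (fun j => γ (Sum.inr j)) = fun j => δ (Sum.inr j) := funext h
  rw [h1]

theorem pmap_zero {K : Type} [Field K] {σ σ' : Type} (m : ℕ) :
    PMap (fun (_ : Arc K σ) (_ : σ') => (0 : PowerSeries (AlgebraicClosure K))) m where
  cg := fun _ _ _ _ _ _ => rfl
  pf := fun i j hj => by
    simp only [map_zero]
    exact IsPF.zero

theorem cq_atZ {K : Type} [Field K] {σ τ : Type} {Q : RelA K (σ ⊕ τ)} {q : ℕ} (hQ : CQ Q q) :
    CQ (atZ Q) q := hQ.pull' ((pmap_zero q).elim (pmap_inr q))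

theorem pderiv_inl {K : Type} [Field K] {σ τ : Type} [Fintype σ] [Fintype τ]
    (f : MvPolynomial σ K) (s : σ) (γ : Arc K (σ ⊕ τ)) :
    aeval γ (pderiv (Sum.inl s) (rename Sum.inl f : MvPolynomial (σ ⊕ τ) K)) =
      aeval (lp γ) (pderiv s f) := by
  classical
  rw [pderiv_rename Sum.inl_injective, aeval_rename]
  rfl

theorem cyl_lp {K : Type} [Field K] {σ τ : Type} [Fintype σ] [Fintype τ] {P : Arc K σ → Prop} {q : ℕ}
    (hP : Cyl P q) : Cyl (fun γ : Arc K (σ ⊕ τ) => P (lp γ)) q :=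
  Cyl.pull hP (pmap_inl q)

variable {n : ℕ} {g : MvPolynomial (Fin n) ℂ} {w : Fin n → ℕ} {N : ℕ}

theorem wh_smul (hg : IsWeightedHomogeneous w g N) (m : ℕ) :
    IsWeightedHomogeneous (fun i => m * w i) g (m * N) := by
  intro α hα
  have h1 := hg hα
  rw [Finsupp.weight_apply, Finsupp.sum_fintype _ _ (by simp)] at h1 ⊢
  rw [← h1, Finset.mul_sum]
  refine Finset.sum_congr rfl fun i _ => ?_
  simp only [smul_eq_mul]
  ring

theorem whi_grad (h : WHI g w N) (b : Fin n → ℕ) : ∃ e, ∀ γ : Arc ℂ (Fin n), ¬ Box 1 b γ →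
    ∃ s, ¬ Vn e (aeval γ (pderiv s g)) := by
  classical
  obtain ⟨m, hm⟩ := h.pow_mem
  refine ⟨(m + 1) * ∑ i, b i, fun γ hγ => ?_⟩
  by_contra hc
  push Not at hc
  apply hγ
  intro i
  rw [la_one]
  refine vn_of_pow (M := m + 1) ?_ (Nat.succ_pos m)
  have h1 := vn_mem hc (Ideal.mem_of_dvd _ (pow_dvd_pow (X i) (Nat.le_succ m)) (hm i))
  rw [map_pow, aeval_X] at h1
  exact vn_mono h1 (Nat.mul_le_mul_left _ (Finset.single_le_sum
    (fun i _ => Nat.zero_le (b i)) (Finset.mem_univ i)))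

section

variable {R : Type} [CommRing R] {M : Meas ℂ R} (u : Rˣ) (hL : M.L = (u : R))
include hL

/-- the arcs in a box -/
theorem sq_box (h : WHI g w N) {D : Set (ℤ × ℤ)} {τ : Type} [Fintype τ]
    {Q : RelA ℂ (Fin n ⊕ τ)} {q : ℕ} (hQ : CQ Q q) (hF : Free Q) (m : ℕ) :
    ∃ c : R, SQ M ((u⁻¹ : Rˣ) : R) (fun γ b => Q γ b ∧ Box 1 (fun i => m * w i) (lp γ))
      (rename Sum.inl g) = PowerSeries.C (((u⁻¹ : Rˣ) : R) ^ (∑ i, m * w i)) *
      (PowerSeries.C c * ∑ j ∈ Finset.range (m * N), PowerSeries.X ^ j +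
        PowerSeries.X ^ (m * N) * SQ M ((u⁻¹ : Rˣ) : R) Q (rename Sum.inl g)) := by
  classical
  have hv : M.L * ((u⁻¹ : Rˣ) : R) = 1 := by rw [hL, Units.mul_inv]
  have htt : ∀ γ : Arc ℂ (Fin n), tt 1 1 (fun i => m * w i) γ = ts (fun i => m * w i) γ := by
    intro γ
    unfold tt
    rw [la_one, la_one]
  have hcb : Cyl (fun γ : Arc ℂ (Fin n ⊕ τ) => Box 1 (fun i => m * w i) (lp γ))
      (∑ i, m * w i) := cyl_lp (cyl_Box _ _)
  have hQB : CQ (fun γ b => Q γ b ∧ Box 1 (fun i => m * w i) (lp γ)) (max q (∑ i, m * w i)) :=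
    (hQ.mono (le_max_left _ _)).and (CQ.of_cyl (hcb.mono (le_max_right _ _)))
  have h1 := SQ_tl M hv (A := 1) (B := 1) (mul_one _) (mul_one _) (fun i => m * w i) g (m * N)
    (fun γ => by
      rw [htt]
      exact aeval_ts (wh_smul h.hom m) γ) hQB (fun γ b hγ => hγ.2)
  have h3 := SQ_congr M ((u⁻¹ : Rˣ) : R) (Q := fun γ b => Q (tl 1 1 (fun i => m * w i) γ) b ∧
    Box 1 (fun i => m * w i) (lp (tl 1 1 (fun i => m * w i) γ))) (Q' := Q)
    (rename Sum.inl g) fun γ b => ?_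
  · rw [h3] at h1
    exact ⟨_, h1⟩
  constructor
  · rintro ⟨h2, -⟩
    exact (hF (tl 1 1 (fun i => m * w i) γ) γ b fun j => rfl).1 h2
  · intro h2
    refine ⟨(hF (tl 1 1 (fun i => m * w i) γ) γ b fun j => rfl).2 h2, fun i => ?_⟩
    rw [lp_tl, la_tt (mul_one _)]
    unfold ts
    rw [vn_iff]
    exact Dvd.intro _ rfl

/-- **Weighted homogeneous polynomials with an isolated critical point.** -/
theorem whi_sq (h : WHI g w N) (hn : 0 < n) {D : Set (ℤ × ℤ)} (hD1 : (-1, 1) ∈ D)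
    (hD2 : (-((∑ i, w i : ℕ) : ℤ), (N : ℤ)) ∈ D) {τ : Type} [Fintype τ]
    {Q : RelA ℂ (Fin n ⊕ τ)} {q : ℕ} (hQ : CQ Q q) :
    SQ M ((u⁻¹ : Rˣ) : R) Q (rename Sum.inl g) ∈ ratU u D := by
  classical
  have hv : M.L * ((u⁻¹ : Rˣ) : R) = 1 := by rw [hL, Units.mul_inv]
  have hNpos : 0 < N := lt_of_le_of_lt (Nat.zero_le _) (h.lt ⟨0, hn⟩)
  -- outside of a box
  have hout : ∀ (b : Fin n → ℕ) {Q : RelA ℂ (Fin n ⊕ τ)} {q : ℕ}, CQ Q q →
      SQ M ((u⁻¹ : Rˣ) : R) (fun γ a => Q γ a ∧ ¬ Box 1 b (lp γ)) (rename Sum.inl g) ∈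
        ratU u D := by
    intro b Q q hQ
    obtain ⟨e, he⟩ := whi_grad h b
    have hcb : Cyl (fun γ : Arc ℂ (Fin n ⊕ τ) => Box 1 b (lp γ)) (∑ i, b i) :=
      cyl_lp (cyl_Box _ _)
    refine SQ_bdd M u hL hD1 _ e ((hQ.mono (le_max_left q (∑ i, b i))).and
      (CQ.of_cyl (hcb.mono (le_max_right _ _)).not)) fun γ a hγ => ?_
    obtain ⟨s, hs⟩ := he _ hγ.2
    exact ⟨Sum.inl s, by rwa [pderiv_inl]⟩
  -- relations which do not depend on the left part
  have hfree : ∀ {Q : RelA ℂ (Fin n ⊕ τ)} {q : ℕ}, CQ Q q → Free Q →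
      SQ M ((u⁻¹ : Rˣ) : R) Q (rename Sum.inl g) ∈ ratU u D := by
    intro Q q hQ hF
    have hcb : Cyl (fun γ : Arc ℂ (Fin n ⊕ τ) => Box 1 (fun i => 1 * w i) (lp γ))
      (∑ i, 1 * w i) := cyl_lp (cyl_Box _ _)
    have h1 := SQ_splitC M hv hQ hcb (rename Sum.inl g)
    obtain ⟨c, hc⟩ := sq_box u hL h (D := D) hQ hF 1
    rw [hc] at h1
    simp only [one_mul] at h1
    have h2 := hout w hQ
    refine geo_solve u (ν := ∑ i, w i) (N := N) hNpos hD2 _
      (SQ M ((u⁻¹ : Rˣ) : R) (fun γ a => Q γ a ∧ ¬ Box 1 w (lp γ)) (rename Sum.inl g) +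
        PowerSeries.C (((u⁻¹ : Rˣ) : R) ^ (∑ i, w i)) *
        (PowerSeries.C c * ∑ j ∈ Finset.range N, PowerSeries.X ^ j)) ?_ ?_
    · exact Subalgebra.add_mem _ h2 (Subalgebra.mul_mem _ (rat_C _ _) (geo_mem M _ hL _ _))
    · linear_combination h1
  -- the general case
  set m := q + 1 with hm
  have hcb : Cyl (fun γ : Arc ℂ (Fin n ⊕ τ) => Box 1 (fun i => m * w i) (lp γ))
    (∑ i, m * w i) := cyl_lp (cyl_Box _ _)
  rw [SQ_splitC M hv hQ hcb (rename Sum.inl g)]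
  refine Subalgebra.add_mem _ ?_ (hout _ hQ)
  have h1 : SQ M ((u⁻¹ : Rˣ) : R) (fun γ a => Q γ a ∧ Box 1 (fun i => m * w i) (lp γ))
      (rename Sum.inl g) = SQ M ((u⁻¹ : Rˣ) : R)
        (fun γ a => atZ Q γ a ∧ Box 1 (fun i => m * w i) (lp γ)) (rename Sum.inl g) := by
    refine SQ_congr M _ _ fun γ a => and_congr_left fun hγ => ?_
    refine hQ.det _ _ _ fun i => ?_
    rcases i with i | i
    · intro k hk
      have h2 := hγ i
      rw [la_one] at h2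
      have h3 : k < m * w i := by
        have := h.wpos i
        nlinarith
      rw [Sum.elim_inl, map_zero]
      exact h2 k h3
    · exact fun k _ => rfl
  obtain ⟨c, hc⟩ := sq_box u hL h (D := D) (cq_atZ hQ) (free_atZ Q) m
  rw [h1, hc]
  exact Subalgebra.mul_mem _ (rat_C _ _) (Subalgebra.add_mem _ (geo_mem M _ hL _ _)
    (Subalgebra.mul_mem _ (Subalgebra.pow_mem _ (rat_X _) _) (hfree (cq_atZ hQ) (free_atZ Q))))

end

end Pool.Agent.H940.Q
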