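import Pool.Agent.H940.Q.Main
import Pool.Graph.R_seed8.TH192.MU.WDefs
import Pool.Graph.R_pool_sql_team_seeded_3997aac3.Q57.MD.Rows

set_option autoImplicit false
set_option linter.unusedSectionVars false
set_option linter.unusedVariables false

/-! # The zeta functions of forms with locally weighted homogeneous isolated singularities -/

namespace Pool.Agent.H940.Q

open MvPolynomial Pool.Agent.W428.MOT Pool.Agent.TH192.MT Pool.Agent.TH192.DT Pool.Agent.Q49.CO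
open Pool.Agent.Q57.QM Pool.Agent.Y229 Pool.Agent.Q57.MC Pool.Agent.Q57.MD
open Pool.Agent.H940.Z Pool.Agent.H940.G
open Pool.Agent.TH192.MU (zetaC JetC)

section gen

variable {σ : Type} [Fintype σ] {M : Meas ℂ (MK ℂ)} (hL : M.L = ((Lu ℂ : (MK ℂ)ˣ) : MK ℂ))
  (hχ : ∀ (ι : Type) [Fintype ι] (S : Set (Pt ℂ ι)), M.χ ι S = algebraMap (K0 ℂ) (MK ℂ) (cls ι S))

/-- conditions on the origin and on the angular component -/
def WE (W : Set (Pt ℂ σ)) (E : Set (AlgebraicClosure ℂ)) : RelA ℂ σ := fun γ a =>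
  (fun i => PowerSeries.coeff 0 (γ i)) ∈ W ∧ a ∈ E

theorem cyl_W {W : Set (Pt ℂ σ)} (hW : Constr W) (q : ℕ) :
    Cyl (fun γ : Arc ℂ σ => (fun i => PowerSeries.coeff 0 (γ i)) ∈ W) q where
  det := fun γ δ h => by
    have h1 : (fun i => PowerSeries.coeff 0 (γ i)) = fun i => PowerSeries.coeff 0 (δ i) :=
      funext fun i => h i 0 (Nat.zero_le _)
    rw [h1]
  con := by
    have h1 := hW.preimage (fun (z : Pt ℂ (σ × Fin (q + 1))) (i : σ) => z (i, 0))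
      fun i => IsPF.coord _
    refine (congrArg Constr (Set.ext fun z => ?_)).mp h1
    change (fun i => z (i, 0)) ∈ W ↔ (fun i => PowerSeries.coeff 0 (ar z i)) ∈ W
    simp only [coeff_ar_zero]

theorem cq_WE {W : Set (Pt ℂ σ)} (hW : Constr W) {E : Set (AlgebraicClosure ℂ)}
    (hE : Constr {z : Pt ℂ Unit | z () ∈ E}) (q : ℕ) : CQ (WE W E) q :=
  (CQ.of_cyl (cyl_W hW q)).and (CQ.of_val hE)

include hL hχ in
theorem zetaM_eq (f : MvPolynomial σ ℂ) {W : Set (Pt ℂ σ)} (hW : Constr W) {E : Set (AlgebraicClosure ℂ)}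
    (hE : Constr {z : Pt ℂ Unit | z () ∈ E}) :
    zetaM f W E = PowerSeries.C (((Lu ℂ : (MK ℂ)ˣ) : MK ℂ) ^ Fintype.card σ) *
      SQ M (((Lu ℂ)⁻¹ : (MK ℂ)ˣ) : MK ℂ) (WE W E) f := by
  have hv : M.L * (((Lu ℂ)⁻¹ : (MK ℂ)ˣ) : MK ℂ) = 1 := by rw [hL, Units.mul_inv]
  ext N
  rw [PowerSeries.coeff_C_mul, coeff_SQ]
  unfold zetaM
  rw [PowerSeries.coeff_mk, ← hχ, ← inv_pow_eq,
    vo_eq M hv (cyl_Cd (cq_WE hW hE N) f (le_refl N) (le_refl N))]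
  unfold vq
  have h1 : {z : Pt ℂ (σ × Fin (N + 1)) | Cd (WE W E) f N (ar z)} = JetS f W E N := by
    ext z
    change ((∀ j < N, PowerSeries.coeff j (aeval (ar z) f) = 0) ∧
      (fun i => PowerSeries.coeff 0 (ar z i)) ∈ W ∧ PowerSeries.coeff N (aeval (ar z) f) ∈ E) ↔
      ((fun i => z (i, 0)) ∈ W ∧ (∀ j < N, PowerSeries.coeff j (aeval (ar z) f) = 0) ∧
        PowerSeries.coeff N (aeval (ar z) f) ∈ E)
    simp only [coeff_ar_zero]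
    tauto
  rw [h1]
  have h2 : ((Lu ℂ : (MK ℂ)ˣ) : MK ℂ) ^ Fintype.card σ *
      (((Lu ℂ)⁻¹ : (MK ℂ)ˣ) : MK ℂ) ^ Fintype.card σ = 1 := by
    rw [← mul_pow, Units.mul_inv, one_pow]
  have h3 : (((Lu ℂ)⁻¹ : (MK ℂ)ˣ) : MK ℂ) ^ (Fintype.card σ * (N + 1)) =
      (((Lu ℂ)⁻¹ : (MK ℂ)ˣ) : MK ℂ) ^ (Fintype.card σ * N) *
      (((Lu ℂ)⁻¹ : (MK ℂ)ˣ) : MK ℂ) ^ Fintype.card σ := by
    rw [← pow_add]
    congr 1
  rw [h3]
  linear_combination (-(M.χ _ (JetS f W E N) *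
    (((Lu ℂ)⁻¹ : (MK ℂ)ˣ) : MK ℂ) ^ (Fintype.card σ * N))) * h2

/-- no further variables -/
theorem SQ_empty {v : MK ℂ} (hv : M.L * v = 1) {Q : RelA ℂ σ} {q : ℕ} (hQ : CQ Q q)
    (f : MvPolynomial σ ℂ) : SQ M v Q f =
      SQ M v (fun (γ : Arc ℂ (σ ⊕ Empty)) a => Q (lp γ) a) (rename Sum.inl f) := by
  ext N
  rw [coeff_SQ, coeff_SQ, ← vo_reindex M hv (Equiv.sumEmpty σ Empty).symm
    (cyl_Cd hQ f (le_max_right q N) (le_max_left q N))]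
  refine vo_congr M fun γ => ?_
  unfold Cd
  rw [aeval_inl]
  rfl

/-- the relation for the covers -/
def CK (k : ℕ) : RelA ℂ (σ ⊕ Unit) := fun γ a =>
  ¬ PowerSeries.coeff 0 (γ (Sum.inr ())) = 0 ∧ a = PowerSeries.coeff 0 (γ (Sum.inr ())) ^ k

theorem cq_CK (k q : ℕ) : CQ (CK k : RelA ℂ (σ ⊕ Unit)) q := by
  refine (CQ.of_cyl (Cyl.c0 _ (Nat.zero_le q)).not).and ⟨fun γ δ a h => ?_, ?_⟩
  · rw [h _ 0 (Nat.zero_le _)]
  · refine Constr.eq (IsPF.coord _) (IsPF.pow ?_ k)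
    simp only [coeff_ar_zero]
    exact IsPF.coord _

/-- the relation on the left part -/
def CL (f : MvPolynomial σ ℂ) (k N : ℕ) : RelA ℂ σ := fun γ c =>
  (Vn N (aeval γ f) ∧ ¬ c = 0) ∧ PowerSeries.coeff N (aeval γ f) = c ^ k

theorem cq_CL (f : MvPolynomial σ ℂ) (k N : ℕ) : CQ (CL f k N) N where
  det := fun γ δ a h => by
    unfold CL
    rw [vn_congr' (cg_aevalK f N γ δ h) (by omega), cg_aevalK f N γ δ h N le_rfl]
  con := by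
    refine Constr.and (Constr.and ?_ (Constr.eqz (IsPF.coord _)).not)
      (Constr.eq ?_ ((IsPF.coord _).pow k))
    · have h1 := (Cyl.vn f (N := N) (q := N) (by omega)).con.preimage
        (fun (z : Pt ℂ ((σ × Fin (N + 1)) ⊕ Unit)) (x : σ × Fin (N + 1)) => z (Sum.inl x))
        fun i => IsPF.coord _
      exact h1
    · exact pf_coeffK (fun (z : Pt ℂ ((σ × Fin (N + 1)) ⊕ Unit)) x => z (Sum.inl x))
        (fun i => IsPF.coord _) _ _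

include hL hχ in
theorem zetaC_eq (f : MvPolynomial σ ℂ) (k : ℕ) :
    zetaC f k = PowerSeries.C (((Lu ℂ : (MK ℂ)ˣ) : MK ℂ) ^ (Fintype.card σ + 1)) *
      PowerSeries.mk fun N => if N = 0 then 0 else
        vo M (((Lu ℂ)⁻¹ : (MK ℂ)ˣ) : MK ℂ) (Cd (CK k) (rename Sum.inl f) N) := by
  have hv : M.L * (((Lu ℂ)⁻¹ : (MK ℂ)ˣ) : MK ℂ) = 1 := by rw [hL, Units.mul_inv]
  ext N
  rw [PowerSeries.coeff_C_mul, PowerSeries.coeff_mk]
  unfold zetaC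
  rw [PowerSeries.coeff_mk]
  rcases Nat.eq_zero_or_pos N with rfl | hN
  · rw [if_pos rfl, if_pos rfl, mul_zero]
  rw [if_neg hN.ne', if_neg hN.ne', ← hχ, ← inv_pow_eq]
  have h1 : vo M (((Lu ℂ)⁻¹ : (MK ℂ)ˣ) : MK ℂ) (Cd (CK k) (rename Sum.inl f) N) =
      vo M (((Lu ℂ)⁻¹ : (MK ℂ)ˣ) : MK ℂ) (LU (CL f k N)) := by
    refine vo_congr M fun γ => ?_
    unfold Cd LU CK CL
    rw [aeval_inl]
    change (Vn N (aeval (lp γ) f) ∧ _ ∧ _) ↔ ((Vn N (aeval (lp γ) f) ∧ _) ∧ _)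
    rw [and_assoc]
    rfl
  rw [h1, vo_LU M hv (cq_CL f k N)]
  have h2 : M.χ _ (JetC f k N) = M.χ _ {z : Pt ℂ ((σ × Fin (N + 1)) ⊕ Unit) |
      CL f k N (ar fun x => z (Sum.inl x)) (z (Sum.inr ()))} := by
    rw [← chi_reindex M (Equiv.sumComm (σ × Fin (N + 1)) Unit) (cq_CL f k N).con]
    congr 1
    ext z
    change (z (Sum.inl ()) ≠ 0 ∧ ((fun i => z (Sum.inr (i, 0))) ∈ (Set.univ : Set (Pt ℂ σ)) ∧
      (∀ j < N, PowerSeries.coeff j (aeval (ar fun i => z (Sum.inr i)) f) = 0) ∧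
      PowerSeries.coeff N (aeval (ar fun i => z (Sum.inr i)) f) = z (Sum.inl ()) ^ k)) ↔
      (((∀ j < N, PowerSeries.coeff j (aeval (ar fun i => z (Sum.inr i)) f) = 0) ∧
        ¬ z (Sum.inl ()) = 0) ∧
        PowerSeries.coeff N (aeval (ar fun i => z (Sum.inr i)) f) = z (Sum.inl ()) ^ k)
    have := Set.mem_univ (fun i => z (Sum.inr (i, 0)))
    tauto
  rw [← h2]
  have h3 : ((Lu ℂ : (MK ℂ)ˣ) : MK ℂ) ^ (Fintype.card σ + 1) *
      (((Lu ℂ)⁻¹ : (MK ℂ)ˣ) : MK ℂ) ^ (Fintype.card σ + 1) = 1 := by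
    rw [← mul_pow, Units.mul_inv, one_pow]
  have h4 : (((Lu ℂ)⁻¹ : (MK ℂ)ˣ) : MK ℂ) ^ (Fintype.card σ * (N + 1)) *
      (((Lu ℂ)⁻¹ : (MK ℂ)ˣ) : MK ℂ) = (((Lu ℂ)⁻¹ : (MK ℂ)ˣ) : MK ℂ) ^ (Fintype.card σ * N) *
      (((Lu ℂ)⁻¹ : (MK ℂ)ˣ) : MK ℂ) ^ (Fintype.card σ + 1) := by
    rw [← pow_succ, ← pow_add]
    congr 1
  rw [mul_assoc (M.χ _ (JetC f k N)), h4]
  linear_combination (-(M.χ _ (JetC f k N) *
    (((Lu ℂ)⁻¹ : (MK ℂ)ˣ) : MK ℂ) ^ (Fintype.card σ * N))) * h3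

end gen

/-- **The zeta functions.** -/
theorem zeta_all {n : ℕ} {f : MvPolynomial (Fin (n + 1)) ℂ} {d : ℕ} (hd : 3 ≤ d)
    (hf : f.IsHomogeneous d) (hf0 : f ≠ 0) (H : LH f) :
    ∃ S : Finset (ℤ × ℤ), (∀ s ∈ S, s.1 < 0 ∧ 0 < s.2 ∧
      SF (fun _ : Fin 1 => f) 0 ((s.1 : ℂ) / s.2)) ∧
    (∀ (W : Set (Pt ℂ (Fin (n + 1)))) (E : Set (AlgebraicClosure ℂ)), Constr W →
      Constr {z : Pt ℂ Unit | z () ∈ E} → zetaM f W E ∈ ratRing ℂ (S : Set (ℤ × ℤ))) ∧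
    (∀ x : Fin (n + 1) → ℂ, zetaX f x ∈ ratRing ℂ (S : Set (ℤ × ℤ))) ∧
    ∀ k : ℕ, zetaC f k ∈ ratRing ℂ (S : Set (ℤ × ℤ)) := by
  obtain ⟨M, hL, hχ⟩ := exists_meas ℂ
  have hv : M.L * (((Lu ℂ)⁻¹ : (MK ℂ)ˣ) : MK ℂ) = 1 := by rw [hL, Units.mul_inv]
  obtain ⟨S, hS, hz⟩ := form_all (M := M) hL hd hf hf0 H
  have hM : ∀ (W : Set (Pt ℂ (Fin (n + 1)))) (E : Set (AlgebraicClosure ℂ)), Constr W →
      Constr {z : Pt ℂ Unit | z () ∈ E} → zetaM f W E ∈ ratRing ℂ (S : Set (ℤ × ℤ)) := by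
    intro W E hW hE
    rw [ratRing_eq, zetaM_eq hL hχ f hW hE, SQ_empty hv (cq_WE hW hE 0)]
    exact Subalgebra.mul_mem _ (rat_C _ _) (hz Empty _ 0 ((cq_WE hW hE 0).pull' (pmap_inl 0)))
  refine ⟨S, hS, hM, fun x => ?_, fun k => ?_⟩
  · have hW : Constr ({fun i => algebraMap ℂ (AlgebraicClosure ℂ) (x i)} : Set (Pt ℂ (Fin (n + 1)))) := by
      have h1 : ({fun i => algebraMap ℂ (AlgebraicClosure ℂ) (x i)} : Set (Pt ℂ (Fin (n + 1)))) =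
          {z | ∀ i, z i = algebraMap ℂ (AlgebraicClosure ℂ) (x i)} := by
        ext z
        rw [Set.mem_singleton_iff]
        exact funext_iff
      rw [h1]
      exact Constr.all fun i => Constr.eq (IsPF.coord _) (IsPF.const _)
    have hE : Constr {z : Pt ℂ Unit | z () ∈ ({1} : Set (AlgebraicClosure ℂ))} :=
      Constr.eq (IsPF.coord _) IsPF.one
    have h1 := hM _ {1} hW hE
    rw [ratRing_eq] at h1 ⊢
    exact mem_tail _ h1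
  · rw [ratRing_eq, zetaC_eq hL hχ f k]
    exact Subalgebra.mul_mem _ (rat_C _ _) (mem_tail _ (hz Unit (CK k) 0 (cq_CK k 0)))

section tw

/-- `s₀` is not a pole -/
def NP (s₀ : ℂ) (Z : RatFunc ℂ) : Prop := Z.denom.eval s₀ ≠ 0

theorem NP.add {s₀ : ℂ} {Z Z' : RatFunc ℂ} (h : NP s₀ Z) (h' : NP s₀ Z') : NP s₀ (Z + Z') := by
  intro h1
  obtain ⟨c, hc⟩ := RatFunc.denom_add_dvd Z Z'
  have h2 := congrArg (Polynomial.eval s₀) hc
  rw [Polynomial.eval_mul, Polynomial.eval_mul, h1, zero_mul] at h2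
  exact mul_ne_zero h h' h2

theorem NP.mul {s₀ : ℂ} {Z Z' : RatFunc ℂ} (h : NP s₀ Z) (h' : NP s₀ Z') : NP s₀ (Z * Z') := by
  intro h1
  obtain ⟨c, hc⟩ := RatFunc.denom_mul_dvd Z Z'
  have h2 := congrArg (Polynomial.eval s₀) hc
  rw [Polynomial.eval_mul, Polynomial.eval_mul, h1, zero_mul] at h2
  exact mul_ne_zero h h' h2

theorem NP.C (s₀ c : ℂ) : NP s₀ (RatFunc.C c) := by
  unfold NP
  rw [RatFunc.denom_C, Polynomial.eval_one]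
  exact one_ne_zero

theorem NP.sum {s₀ : ℂ} {α : Type} (s : Finset α) (Z : α → RatFunc ℂ) (h : ∀ x ∈ s, NP s₀ (Z x)) :
    NP s₀ (∑ x ∈ s, Z x) := by
  classical
  induction s using Finset.induction_on with
  | empty =>
    rw [Finset.sum_empty, ← map_zero RatFunc.C]
    exact NP.C _ _
  | insert a s ha ih =>
    rw [Finset.sum_insert ha]
    exact (h a (Finset.mem_insert_self _ _)).add (ih fun x hx => h x (Finset.mem_insert_of_mem hx))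

variable {R : Type} [CommRing R] [IsDomain R] (E : MK ℂ →+* R) (ε : R →+* ℂ)
  (hε : ε (E ((Lu ℂ : (MK ℂ)ˣ) : MK ℂ)) = 1) (hE : E ((Lu ℂ : (MK ℂ)ˣ) : MK ℂ) ≠ 1)
include hε hE

open Pool.Agent.TH192.MU (IsTwistedTop IsTopZeta) in
/-- the poles of the twisted topological zeta functions -/
theorem twisted_poles {σ : Type} [Fintype σ] (f : MvPolynomial σ ℂ) (S : Finset (ℤ × ℤ))
    (hS : ∀ s ∈ S, s.1 < 0 ∧ 0 < s.2)
    (hz : ∀ k : ℕ, zetaC f k ∈ ratRing ℂ (S : Set (ℤ × ℤ))) (e : ℕ) (he : 1 ≤ e) (Z : RatFunc ℂ)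
    (hZ : IsTwistedTop E ε f e Z) (s₀ : ℂ) (hs : Z.denom.eval s₀ = 0) :
    ∃ q ∈ S, s₀ = (q.1 : ℂ) / q.2 := by
  obtain ⟨Y, hY, hsum⟩ := hZ
  by_contra hc
  have h1 : ∀ k, k ∣ e → NP s₀ (Y k) := by
    intro k hk h2
    obtain ⟨q, hq, h3⟩ := top_poles E ε hε hE (S : Set (ℤ × ℤ)) (fun q hq => hS q hq) _ (hz k)
      (Y k) (hY k hk) s₀ h2
    exact hc ⟨q, hq, h3⟩
  have hφ : (Nat.totient e : ℂ) ≠ 0 := by
    have h2 : 0 < Nat.totient e := Nat.totient_pos.2 he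
    exact_mod_cast h2.ne'
  have h2 : Z = RatFunc.C (Nat.totient e : ℂ)⁻¹ *
      ∑ q ∈ e.divisorsAntidiagonal, ((ArithmeticFunction.moebius q.1 : ℤ) : RatFunc ℂ) * Y q.2 := by
    rw [← hsum, ← mul_assoc]
    have h3 : (RatFunc.C (Nat.totient e : ℂ)⁻¹) * (Nat.totient e : RatFunc ℂ) = 1 := by
      have h4 : (Nat.totient e : RatFunc ℂ) = RatFunc.C (Nat.totient e : ℂ) := by
        rw [map_natCast]
      rw [h4, ← map_mul, inv_mul_cancel₀ hφ, map_one]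
    rw [h3, one_mul]
  have h3 : NP s₀ Z := by
    rw [h2]
    refine (NP.C _ _).mul (NP.sum _ _ fun q hq => ?_)
    have h4 : ((ArithmeticFunction.moebius q.1 : ℤ) : RatFunc ℂ) =
        RatFunc.C ((ArithmeticFunction.moebius q.1 : ℤ) : ℂ) := by
      rw [map_intCast]
    rw [h4]
    exact (NP.C _ _).mul (h1 _ (Dvd.intro_left q.1 (Nat.mem_divisorsAntidiagonal.1 hq).1))
  exact h3 hs

end tw

end Pool.Agent.H940.Q
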